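import Pool.Agent.Helper88.MT.Stm

/-!
# Conics over `k(t)`
-/

set_option autoImplicit false

open Polynomial

namespace Pool.Agent.Helper88.MT

/-- the conic `w² = f a u² + (X - c) a v²` has a point over `k(X)` -/
def Rel {k : Type} [Field k] (f : k[X]) (a c : k) : Prop :=
  ∃ u v w : k[X], ¬ (u = 0 ∧ v = 0 ∧ w = 0) ∧
    w ^ 2 = f * C a * u ^ 2 + (X - C c) * C a * v ^ 2

lemma deg_lt {k : Type} [Field k] {π : k[X]} (hπ : 0 < π.natDegree) {u v w : k[X]}
    (h : ¬ (π * u = 0 ∧ π * v = 0 ∧ π * w = 0)) :
    u.natDegree + v.natDegree + w.natDegree <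
      (π * u).natDegree + (π * v).natDegree + (π * w).natDegree := by
  have hπ0 : π ≠ 0 := by
    rintro rfl
    simp at hπ
  have key : ∀ z : k[X], z.natDegree ≤ (π * z).natDegree ∧ (π * z ≠ 0 → z.natDegree < (π * z).natDegree) := by
    intro z
    by_cases hz : z = 0
    · subst hz
      simp
    · rw [natDegree_mul hπ0 hz]
      exact ⟨by omega, fun _ => by omega⟩
  obtain ⟨h1, h1'⟩ := key u
  obtain ⟨h2, h2'⟩ := key v
  obtain ⟨h3, h3'⟩ := key w
  by_cases e1 : π * u = 0
  · by_cases e2 : π * v = 0
    · have e3 : π * w ≠ 0 := fun e3 => h ⟨e1, e2, e3⟩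
      have := h3' e3
      omega
    · have := h2' e2
      omega
  · have := h1' e1
    omega

/-- at a point `c` with `f(c) ≠ 0` -/
theorem rel_at {k : Type} [Field k] {c a : k} (ha : a ≠ 0) {f : k[X]} (hf : f.eval c ≠ 0)
    (h : Rel f a c) : ∃ d : k, f.eval c * a = d ^ 2 := by
  by_contra hns
  push Not at hns
  have key : ∀ n : ℕ, ∀ u v w : k[X], u.natDegree + v.natDegree + w.natDegree = n →
      ¬ (u = 0 ∧ v = 0 ∧ w = 0) →
      w ^ 2 ≠ f * C a * u ^ 2 + (X - C c) * C a * v ^ 2 := by
    intro n
    induction n using Nat.strong_induction_on with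
    | _ n ih =>
      intro u v w hn hv hw
      have h1 := congrArg (Polynomial.eval c) hw
      simp only [eval_pow, eval_add, eval_mul, eval_C, eval_sub, eval_X, sub_self, zero_mul,
        add_zero] at h1
      have hu : u.eval c = 0 := by
        by_contra hu
        refine hns (w.eval c / u.eval c) ?_
        rw [div_pow, h1]
        field_simp
      have hw0 : w.eval c = 0 := by
        rw [hu, zero_pow two_ne_zero, mul_zero] at h1
        exact pow_eq_zero_iff two_ne_zero |>.1 h1
      obtain ⟨u', rfl⟩ := dvd_iff_isRoot.2 hu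
      obtain ⟨w', rfl⟩ := dvd_iff_isRoot.2 hw0
      have hX : (X - C c : k[X]) ≠ 0 := X_sub_C_ne_zero c
      have h2 : (X - C c) * w' ^ 2 = f * C a * (X - C c) * u' ^ 2 + C a * v ^ 2 := by
        apply mul_left_cancel₀ hX
        linear_combination hw
      have h3 := congrArg (Polynomial.eval c) h2
      simp only [eval_pow, eval_add, eval_mul, eval_C, eval_sub, eval_X, sub_self, zero_mul,
        mul_zero, zero_add] at h3
      have hv0 : v.eval c = 0 := by
        have h4 : a * v.eval c ^ 2 = 0 := h3.symm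
        rcases mul_eq_zero.1 h4 with h5 | h5
        · exact absurd h5 ha
        · exact pow_eq_zero_iff two_ne_zero |>.1 h5
      obtain ⟨v', rfl⟩ := dvd_iff_isRoot.2 hv0
      refine ih _ ?_ u' v' w' rfl (fun h => hv ?_) ?_
      · rw [← hn]
        exact deg_lt (by rw [natDegree_X_sub_C]; exact one_pos) hv
      · obtain ⟨rfl, rfl, rfl⟩ := h
        simp
      · apply mul_left_cancel₀ hX
        linear_combination h2
  obtain ⟨u, v, w, hv, hw⟩ := h
  exact key _ u v w rfl hv hw

/-- at a root of `f` -/
theorem rel_root {k Ω : Type} [Field k] [Field Ω] [Algebra k Ω] {c a : k} (ha : a ≠ 0) {f : k[X]}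
    (hf : Squarefree f) {θ : Ω} (hθ : IsIntegral k θ) (h0 : aeval θ f = 0) (h : Rel f a c) :
    ∃ y ∈ IntermediateField.adjoin k {θ}, y ^ 2 = (θ - algebraMap k Ω c) * algebraMap k Ω a := by
  set π := minpoly k θ with hπ
  have hπi : Irreducible π := minpoly.irreducible hθ
  have hπ0 : π ≠ 0 := hπi.ne_zero
  have hπd : 0 < π.natDegree := minpoly.natDegree_pos hθ
  have hdvd : ∀ z : k[X], aeval θ z = 0 → ∃ z', z = π * z' := fun z hz => minpoly.dvd k θ hz
  obtain ⟨g, hg⟩ := hdvd f h0
  have hng : ¬ π ∣ g := by
    rintro ⟨g', rfl⟩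
    have h1 : IsUnit π := hf π ⟨g', by rw [hg]; ring⟩
    exact hπi.not_isUnit h1
  have key : ∀ n : ℕ, ∀ u v w : k[X], u.natDegree + v.natDegree + w.natDegree = n →
      ¬ (u = 0 ∧ v = 0 ∧ w = 0) →
      w ^ 2 = f * C a * u ^ 2 + (X - C c) * C a * v ^ 2 →
      ∃ y ∈ IntermediateField.adjoin k {θ}, y ^ 2 = (θ - algebraMap k Ω c) * algebraMap k Ω a := by
    intro n
    induction n using Nat.strong_induction_on with
    | _ n ih =>
      intro u v w hn hne hw
      have h1 := congrArg (aeval θ) hw
      simp only [map_pow, map_add, map_mul, map_sub, aeval_C, aeval_X, h0, zero_mul, zero_add] at h1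
      have hmem : ∀ z : k[X], aeval θ z ∈ IntermediateField.adjoin k {θ} := by
        intro z
        rw [aeval_eq_sum_range]
        exact sum_mem fun i _ => IntermediateField.smul_mem _
          (pow_mem (IntermediateField.mem_adjoin_simple_self k θ) i)
      by_cases hv : aeval θ v = 0
      · obtain ⟨v', rfl⟩ := hdvd v hv
        have hw0 : aeval θ w = 0 := by
          rw [hv, zero_pow two_ne_zero, mul_zero] at h1
          exact pow_eq_zero_iff two_ne_zero |>.1 h1
        obtain ⟨w', rfl⟩ := hdvd w hw0
        have h2 : π * w' ^ 2 = g * C a * u ^ 2 + (X - C c) * C a * (π * v' ^ 2) := by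
          apply mul_left_cancel₀ hπ0
          rw [hg] at hw
          linear_combination hw
        have h3 : π ∣ g * (C a * u ^ 2) := ⟨w' ^ 2 - (X - C c) * C a * v' ^ 2, by
          linear_combination -h2⟩
        have h4 : π ∣ u := by
          have h5 : π ∣ C a * u ^ 2 := (hπi.prime.dvd_or_dvd h3).resolve_left hng
          have h6 : π ∣ u ^ 2 := (hπi.prime.dvd_or_dvd h5).resolve_left fun h7 =>
            hπi.not_isUnit (isUnit_of_dvd_unit h7 (isUnit_C.2 (isUnit_iff_ne_zero.2 ha)))
          exact hπi.prime.dvd_of_dvd_pow h6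
        obtain ⟨u', rfl⟩ := h4
        refine ih _ ?_ u' v' w' rfl (fun h => hne ?_) ?_
        · rw [← hn]
          exact deg_lt hπd hne
        · obtain ⟨rfl, rfl, rfl⟩ := h
          simp
        · apply mul_left_cancel₀ hπ0
          rw [hg]
          linear_combination h2
      · refine ⟨aeval θ w / aeval θ v, div_mem (hmem w) (hmem v), ?_⟩
        rw [div_pow, h1]
        field_simp
  obtain ⟨u, v, w, hv, hw⟩ := h
  exact key _ u v w rfl hv hw

lemma rel_sq {k : Type} [Field k] {a c : k} {g h : k[X]} (hg : g ≠ 0) (H : Rel (g * g * h) a c) :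
    Rel h a c := by
  obtain ⟨u, v, w, hne, hw⟩ := H
  refine ⟨g * u, v, w, fun h1 => hne ⟨?_, h1.2⟩, ?_⟩
  · exact (mul_eq_zero.1 h1.1).resolve_left hg
  · rw [hw]
    ring

/-- **The classes of `x - c` are those of a rational point.** -/
theorem interp (hT : S_two) {k : Type} [Field k] [NumberField k] (a : k → k) (ha : ∀ c, a c ≠ 0) :
    ∀ (n : ℕ) (f : k[X]), f.natDegree = n → f ≠ 0 → (∀ c, Rel f (a c) c) →
    (∃ e : k, e ≠ 0 ∧ ∀ c, ∃ d : k, e * a c = d ^ 2) ∨
      ∃ θ : k, ∀ c, ∃ d : k, (θ - c) * a c = d ^ 2 := by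
  intro n
  induction n using Nat.strong_induction_on with
  | _ n ih =>
    intro f hn hf H
    by_cases hsq : Squarefree f
    · by_cases hd : f.natDegree = 0
      · left
        obtain ⟨e, rfl⟩ := natDegree_eq_zero.1 hd
        have he : e ≠ 0 := by
          rintro rfl
          exact hf C_0
        refine ⟨e, he, fun c => ?_⟩
        have := rel_at (ha c) (f := C e) (by rwa [eval_C]) (H c)
        rwa [eval_C] at this
      · right
        by_cases hd1 : f.natDegree = 1
        · obtain ⟨b1, b0, hb1, hf1⟩ : ∃ b1 b0 : k, b1 ≠ 0 ∧ f = C b1 * X + C b0 :=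
            ⟨f.coeff 1, f.coeff 0, by
              have := leadingCoeff_ne_zero.2 hf
              rwa [leadingCoeff, hd1] at this, eq_X_add_C_of_natDegree_le_one hd1.le⟩
          refine ⟨-b0 / b1, fun c => ?_⟩
          obtain ⟨y, -, hy⟩ := rel_root (Ω := k) (ha c) hsq (θ := -b0 / b1) (isIntegral_algebraMap (R := k) (A := k) (x := -b0/b1))
            (by
              rw [hf1]
              simp only [map_add, map_mul, aeval_C, aeval_X, Algebra.algebraMap_self, RingHom.id_apply]
              field_simp
              ring) (H c)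
          exact ⟨y, hy.symm⟩
        · exfalso
          have hsep : f.Separable := (PerfectField.separable_iff_squarefree).2 hsq
          have hcard := card_rootSet_eq_natDegree (K := AlgebraicClosure k) hsep
            (IsAlgClosed.splits _)
          have h2 : 1 < Fintype.card (f.rootSet (AlgebraicClosure k)) := by
            rw [hcard]
            omega
          obtain ⟨⟨θ1, h1⟩, ⟨θ2, h2⟩, hne⟩ := Fintype.one_lt_card_iff.1 h2
          have hne' : θ1 ≠ θ2 := fun h => hne (Subtype.ext h)
          have i1 : IsAlgebraic k θ1 := Algebra.IsAlgebraic.isAlgebraic θ1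
          have i2 : IsAlgebraic k θ2 := Algebra.IsAlgebraic.isAlgebraic θ2
          obtain ⟨c, hc, hw⟩ := hT k (AlgebraicClosure k) θ1 θ2 i1 i2 hne'
          obtain ⟨y1, hy1, hy1'⟩ := rel_root (ha c) hsq i1.isIntegral ((mem_rootSet.1 h1).2) (H c)
          obtain ⟨y2, hy2, hy2'⟩ := rel_root (ha c) hsq i2.isIntegral ((mem_rootSet.1 h2).2) (H c)
          have hy20 : y2 ≠ 0 := by
            rintro rfl
            rw [zero_pow two_ne_zero] at hy2'
            rcases mul_eq_zero.1 hy2'.symm with h3 | h3
            · exact hc (sub_eq_zero.1 h3).symm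
            · exact ha c ((map_eq_zero _).1 h3)
          refine hw (y1 / y2) (div_mem ?_ ?_) ?_
          · exact IntermediateField.adjoin.mono k _ _ (by simp) hy1
          · exact IntermediateField.adjoin.mono k _ _ (by simp) hy2
          · have hac : algebraMap k (AlgebraicClosure k) (a c) ≠ 0 := (_root_.map_ne_zero _).2 (ha c)
            rw [div_pow, hy1', hy2']
            have h3 : θ2 - algebraMap k (AlgebraicClosure k) c ≠ 0 := fun h3 =>
              hc (sub_eq_zero.1 h3).symm
            field_simp
    · have h1 : ∃ g : k[X], g * g ∣ f ∧ ¬ IsUnit g := by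
        unfold Squarefree at hsq
        push Not at hsq
        exact hsq
      obtain ⟨g, ⟨h, hgh⟩, hgu⟩ := h1
      have hg0 : g ≠ 0 := by
        rintro rfl
        apply hf
        rw [hgh]
        ring
      have hh0 : h ≠ 0 := by
        rintro rfl
        apply hf
        rw [hgh]
        ring
      have hgd : 0 < g.natDegree := by
        by_contra hcon
        obtain ⟨e, he⟩ := natDegree_eq_zero.1 (by omega : g.natDegree = 0)
        apply hgu
        rw [← he]
        exact isUnit_C.2 (isUnit_iff_ne_zero.2 (by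
          rintro rfl
          apply hg0
          rw [← he, C_0]))
      refine ih h.natDegree ?_ h rfl hh0 fun c => rel_sq hg0 (hgh ▸ H c)
      rw [← hn, hgh, natDegree_mul (mul_ne_zero hg0 hg0) hh0, natDegree_mul hg0 hg0]
      omega

end Pool.Agent.Helper88.MT
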