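import Pool.Agent.Helper39.BS.Res
import Pool.Agent.Helper39.BS.Core

/-!
# Sections whose classes are interpolated by a polynomial
-/

set_option autoImplicit false

open NumberField IsDedekindDomain Polynomial Filter Topology
open Pool.Agent.TH954 Pool.Agent.Helper39.BS Pool.Agent.TH213.SEL

namespace Pool.Agent.Helper88.MT

variable {K : Type} [Field K] [NumberField K]

/-- near `ξ` there is a rational number `c` for which `f(c) (ξ - c)` is not a square -/
lemma exists_ns (v : HeightOneSpectrum (𝓞 K)) (f : K[X]) (S : Finset K)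
    (ξ : v.adicCompletion K) (hξ : aeval ξ f ≠ 0) :
    ∃ c : K, c ∉ S ∧ ∀ y : v.adicCompletion K,
      y ^ 2 ≠ algebraMap K (v.adicCompletion K) (f.eval c) * (ξ - algebraMap K _ c) := by
  classical
  obtain ⟨t, ht⟩ := ns_exists v
  have ht0 : t ≠ 0 := fun h => ht 0 (by rw [h]; exact zero_pow two_ne_zero)
  obtain ⟨π, hπ⟩ := v.valuation_exists_uniformizer K
  have hπn : ‖algebraMap K (v.adicCompletion K) π‖ < 1 := by
    rw [← norm_one (α := v.adicCompletion K), ← not_le, Pool.Agent.Y682.norm_le_iff, not_le, map_one,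
      Pool.Agent.Y682.vv_coe, hπ]
    rw [← WithZero.exp_zero]
    exact WithZero.exp_lt_exp.2 (by norm_num)
  have hπ0 : algebraMap K (v.adicCompletion K) π ≠ 0 := by
    rw [Ne, map_eq_zero]
    rintro rfl
    rw [map_zero] at hπ
    exact WithZero.exp_ne_zero hπ.symm
  set p : v.adicCompletion K := algebraMap K (v.adicCompletion K) π with hp
  have hlim : Tendsto (fun n : ℕ => p ^ n) atTop (𝓝 0) := tendsto_pow_atTop_nhds_zero_of_norm_lt_one hπn
  set φ : v.adicCompletion K → v.adicCompletion K := fun h => ξ - t * aeval ξ f * h ^ 2 with hφ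
  have hφc : Continuous φ := by
    rw [hφ]
    fun_prop
  have hfc : Continuous fun z : v.adicCompletion K => aeval z f := by
    simp only [aeval_def, ← eval_map]
    exact (f.map _).continuous
  have hφ0 : φ 0 = ξ := by
    simp [hφ]
  have hS : ∀ᶠ n : ℕ in atTop, φ (p ^ n) ∉
      ((S.image (algebraMap K (v.adicCompletion K))).erase ξ : Finset (v.adicCompletion K)) := by
    have h1 : Tendsto (fun n : ℕ => φ (p ^ n)) atTop (𝓝 ξ) := by
      have := (hφc.tendsto 0).comp hlim
      rw [hφ0] at this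
      exact this
    have h2 : IsOpen (((S.image (algebraMap K (v.adicCompletion K))).erase ξ :
        Finset (v.adicCompletion K)) : Set (v.adicCompletion K))ᶜ :=
      (Finset.finite_toSet _).isClosed.isOpen_compl
    have h3 : ξ ∈ (((S.image (algebraMap K (v.adicCompletion K))).erase ξ :
        Finset (v.adicCompletion K)) : Set (v.adicCompletion K))ᶜ := by
      simp
    exact h1.eventually (h2.mem_nhds h3)
  have hN : ∀ᶠ n : ℕ in atTop, ∀ y, y ^ 2 ≠ t * aeval (φ (p ^ n)) f / aeval ξ f := by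
    have h1 : Tendsto (fun n : ℕ => t * aeval (φ (p ^ n)) f / aeval ξ f) atTop (𝓝 t) := by
      have h2 : Continuous fun h : v.adicCompletion K => t * aeval (φ h) f / aeval ξ f :=
        (continuous_const.mul (hfc.comp hφc)).div_const _
      have := (h2.tendsto 0).comp hlim
      have e : t * aeval (φ 0) f / aeval ξ f = t := by
        rw [hφ0]
        exact mul_div_cancel_right₀ _ hξ
      rw [e] at this
      exact this
    exact h1.eventually ((ns_open v).mem_nhds ht)
  obtain ⟨n, hn1, hn2⟩ := (hS.and hN).exists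
  have hpn : p ^ n ≠ 0 := pow_ne_zero n hπ0
  have hne : φ (p ^ n) ≠ ξ := by
    intro h
    have h1 : t * aeval ξ f * (p ^ n) ^ 2 = 0 := by
      have h2 : ξ - t * aeval ξ f * (p ^ n) ^ 2 = ξ := h
      linear_combination -h2
    exact mul_ne_zero (mul_ne_zero ht0 hξ) (pow_ne_zero 2 hpn) h1
  have hU : IsOpen ({z : v.adicCompletion K | ∀ y, y ^ 2 ≠ aeval z f * (ξ - z)} ∩
      ((S.image (algebraMap K (v.adicCompletion K)) : Finset (v.adicCompletion K)) :
        Set (v.adicCompletion K))ᶜ) := by
    refine ((ns_open v).preimage (hfc.mul (continuous_const.sub continuous_id))).inter ?_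
    exact (Finset.finite_toSet _).isClosed.isOpen_compl
  have hmem : ∀ y, y ^ 2 ≠ aeval (φ (p ^ n)) f * (ξ - φ (p ^ n)) := by
    intro y hy
    refine hn2 (y / (aeval ξ f * p ^ n)) ?_
    rw [div_pow, hy]
    have e : ξ - φ (p ^ n) = t * aeval ξ f * (p ^ n) ^ 2 := by
      simp [hφ]
    rw [e]
    field_simp
  obtain ⟨c, hc1, hc2⟩ := (HeightOneSpectrum.denseRange_algebraMap K v).exists_mem_open hU
    ⟨φ (p ^ n), hmem, fun h => hn1 (Finset.mem_erase.2 ⟨hne, h⟩)⟩
  refine ⟨c, fun h => hc2 (Finset.mem_coe.2 (Finset.mem_image_of_mem _ h)), fun y hy => hc1 y ?_⟩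
  rw [hy, aeval_algebraMap_apply_eq_algebraMap_eval]

variable {M : Type} [Field M] [Algebra K M] {A : SAct K M}

/-- at the places where `x` is finite it is a root of `f` -/
lemma root_of_interp {v : HeightOneSpectrum (𝓞 K)}
    {pl : Plc K M (AlgebraicClosure (v.adicCompletion K))} (hpl : GeoPlc A pl) {x : M}
    (hx : x ∈ A.fix) (hxK : ∀ b : K, x ≠ algebraMap K M b) (f : K[X]) (S : Finset K)
    (H : ∀ c ∉ S, ∃ w ∈ A.fix, x - algebraMap K M c = algebraMap K M (f.eval c) * w ^ 2)
    (hW : x ∈ pl.W) : ∃ ξ, V v pl x ξ ∧ aeval ξ f = 0 := by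
  obtain ⟨ξ, hξ⟩ := V_fix hpl hx hW
  refine ⟨ξ, hξ, ?_⟩
  by_contra h0
  obtain ⟨c, hcS, hc⟩ := exists_ns v f S ξ h0
  obtain ⟨w, hw, hxw⟩ := H c hcS
  have hfc : f.eval c ≠ 0 := by
    intro h
    rw [h, map_zero, zero_mul, sub_eq_zero] at hxw
    exact hxK c hxw
  obtain ⟨ζ, hζ⟩ := class_fin hpl hξ hfc hw hxw
  refine hc (algebraMap K _ (f.eval c) * ζ) ?_
  rw [hζ]
  ring

lemma V_aeval {v : HeightOneSpectrum (𝓞 K)}
    {pl : Plc K M (AlgebraicClosure (v.adicCompletion K))} {x : M} {ξ : v.adicCompletion K}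
    (h : V v pl x ξ) (f : K[X]) : V v pl (aeval x f) (aeval ξ f) := by
  induction f using Polynomial.induction_on' with
  | add p q hp hq =>
    rw [map_add, map_add]
    have h1 := Plc.val.add hp hq
    unfold V
    rw [map_add]
    exact h1
  | monomial n a =>
    rw [aeval_monomial, aeval_monomial]
    exact V_mul (V_base a) (V_npow h n)

/-- a function which vanishes at all the places where `x` is a root of `f` or infinite -/
lemma val_zero_of {v : HeightOneSpectrum (𝓞 K)}
    {pl : Plc K M (AlgebraicClosure (v.adicCompletion K))} {x : M} (f : K[X]) {e : K}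
    (he : f.eval e ≠ 0) (h : x ∈ pl.W → ∃ ξ, V v pl x ξ ∧ aeval ξ f = 0) :
    pl.val (aeval x f * ((x - algebraMap K M e)⁻¹) ^ (f.natDegree + 1)) 0 := by
  by_cases hW : x ∈ pl.W
  · obtain ⟨ξ, hξ, hf⟩ := h hW
    have hne : ξ - algebraMap K _ e ≠ 0 := by
      intro h0
      rw [sub_eq_zero.1 h0, aeval_algebraMap_apply_eq_algebraMap_eval, map_eq_zero] at hf
      exact he hf
    have h1 := V_mul (V_aeval hξ f) (V_npow (V_inv (V_sub hξ (V_base e)) hne) (f.natDegree + 1))
    rw [hf, zero_mul] at h1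
    rwa [← V_zero_iff]
  · set y : M := (x - algebraMap K M e)⁻¹ with hy
    have hxe : x - algebraMap K M e ∉ pl.W := by
      intro h1
      apply hW
      have := add_mem h1 (pl.alg_mem e)
      rwa [sub_add_cancel] at this
    have hxe0 : x - algebraMap K M e ≠ 0 := by
      intro h0
      rw [h0] at hxe
      exact hxe (zero_mem _)
    have hy0 : pl.val y 0 := Plc.val_inv_of_notMem hxe
    have hxy : x * y ∈ pl.W := by
      have e1 : x * y = 1 + algebraMap K M e * y := by
        rw [hy]
        field_simp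
        ring
      rw [e1]
      exact add_mem (one_mem _) (mul_mem (pl.alg_mem e) hy0.mem)
    have e2 : aeval x f * y ^ (f.natDegree + 1) = y * ∑ i ∈ Finset.range (f.natDegree + 1),
        algebraMap K M (f.coeff i) * (x * y) ^ i * y ^ (f.natDegree - i) := by
      rw [aeval_eq_sum_range, Finset.sum_mul, Finset.mul_sum]
      refine Finset.sum_congr rfl fun i hi => ?_
      have h2 : i ≤ f.natDegree := by
        rw [Finset.mem_range] at hi
        omega
      have h3 : y ^ (f.natDegree + 1) = y ^ i * y ^ (f.natDegree - i) * y := by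
        rw [← pow_add, ← pow_succ]
        congr 1
        omega
      rw [Algebra.smul_def, h3, mul_pow]
      ring
    have h4 : (∑ i ∈ Finset.range (f.natDegree + 1),
        algebraMap K M (f.coeff i) * (x * y) ^ i * y ^ (f.natDegree - i)) ∈ pl.W :=
      sum_mem fun i _ => mul_mem (mul_mem (pl.alg_mem _) (pow_mem hxy i)) (pow_mem hy0.mem _)
    obtain ⟨c, hc⟩ := Plc.val_of_mem h4
    have h5 := hy0.mul hc
    rw [zero_mul] at h5
    rw [e2]
    exact h5

variable {F Ω B : Type} [Field F] [Field Ω] [Field B]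
  [Algebra K F] [Algebra F Ω] [Algebra K Ω] [Algebra K B] [IsScalarTower K F Ω]
  [IsAlgClosure F Ω] [IsAlgClosure K B]

/-- **Interpolation.** A section with the classes of `x - c`, modulo squares, given by the values of a
polynomial, is geometric. -/
theorem of_interp
    (hF : ∃ t : F, Transcendental K t ∧
      Algebra.IsAlgebraic (IntermediateField.adjoin K {t}) F)
    (s : GalSection K F Ω B) {x : F} (hx : Transcendental K x) (f : K[X]) (hf : f ≠ 0)
    (S : Finset K)
    (H : ∀ c ∉ S, ∃ w ∈ fixS s, algebraMap F Ω (x - algebraMap K F c) =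
      algebraMap K Ω (f.eval c) * w ^ 2) :
    ∃! O : ValuationSubring F, s.ArisesFrom O := by
  have hΩ2 : Algebra.IsAlgebraic F Ω := IsAlgClosure.isAlgebraic
  choose pl hpl using geoOver s
  have hxfix : algebraMap F Ω x ∈ (toSAct s).fix :=
    (mem_fixS s).2 fun σ => (s.s σ).commutes x
  have hxK : ∀ b : K, algebraMap F Ω x ≠ algebraMap K Ω b := by
    intro b h1
    apply hx
    rw [IsScalarTower.algebraMap_apply K F Ω] at h1
    rw [(algebraMap F Ω).injective h1]
    exact isAlgebraic_algebraMap b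
  obtain ⟨e, he⟩ : ∃ e : K, f.eval e ≠ 0 := by
    by_contra hcon
    push Not at hcon
    exact hf (Polynomial.funext fun r => by rw [hcon r, eval_zero])
  have hroot : ∀ v, algebraMap F Ω x ∈ (pl v).W →
      ∃ ξ, V v (pl v) (algebraMap F Ω x) ξ ∧ aeval ξ f = 0 := fun v hW =>
    root_of_interp (hpl v) hxfix hxK f S (fun c hc => by
      obtain ⟨w, hw, h1⟩ := H c hc
      refine ⟨w, (mem_fixS s).2 hw, ?_⟩
      rw [← h1, map_sub, ← IsScalarTower.algebraMap_apply]) hW
  set t : F := aeval x f * ((x - algebraMap K F e)⁻¹) ^ (f.natDegree + 1) with ht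
  have ht0 : t ≠ 0 := by
    refine mul_ne_zero (fun h => hx ⟨f, hf, h⟩) (pow_ne_zero _ (inv_ne_zero ?_))
    intro h
    apply hx
    rw [sub_eq_zero.1 h]
    exact isAlgebraic_algebraMap e
  obtain ⟨O, -, hO1, hO2⟩ := bir_of_val hF s pl hpl (t := t) ht0 (fun v => by
    have h1 := val_zero_of (pl := pl v) f he (hroot v)
    rw [ht, map_mul, map_pow, map_inv₀, map_sub, ← IsScalarTower.algebraMap_apply,
      ← aeval_algebraMap_apply]
    exact h1)
  exact ⟨O, hO1, fun O' hO' => hO2 O' hO'⟩

end Pool.Agent.Helper88.MT
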