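import Pool.Agent.Helper88.MT.Kum
import Pool.Agent.Helper88.BL.Ext

/-!
# Change of the base field of an action, restriction to the algebraic closure
-/

set_option autoImplicit false
set_option linter.unusedSectionVars false

open Polynomial IntermediateField

namespace Pool.Agent.Helper88.MT

/-- continuity from stabilisers -/
lemma cont_of {G E N : Type} [Field E] [Field N] [Algebra E N] [Group G] [TopologicalSpace G]
    [IsTopologicalGroup G] (φ : G →* (N ≃ₐ[E] N))
    (h : ∀ x : N, {g | φ g x = x} ∈ nhds (1 : G)) : Continuous φ := by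
  apply continuous_of_continuousAt_one
  rw [ContinuousAt, map_one]
  intro S hS
  rw [krullTopology_mem_nhds_one_iff] at hS
  obtain ⟨L, hL, hLS⟩ := hS
  obtain ⟨T, hT⟩ := IntermediateField.essFiniteType_iff.1
    (inferInstance : Algebra.EssFiniteType E L)
  have h1 : (⋂ x ∈ T, {g | φ g (x : N) = x}) ∈ nhds (1 : G) :=
    (Filter.biInter_finset_mem T).2 fun x _ => h x
  refine Filter.mem_map.2 (Filter.mem_of_superset h1 fun g hg => hLS ?_)
  rw [SetLike.mem_coe, IntermediateField.mem_fixingSubgroup_iff]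
  have h2 : L ≤ IntermediateField.fixedField (Subgroup.zpowers (φ g)) := by
    rw [← hT, IntermediateField.adjoin_le_iff]
    intro x hx
    rw [SetLike.mem_coe, IntermediateField.mem_fixedField_iff]
    intro σ hσ
    have h5 : Subgroup.zpowers (φ g) ≤ MulAction.stabilizer _ x := by
      rw [Subgroup.zpowers_le]
      exact Set.mem_iInter₂.1 hg x hx
    exact h5 hσ
  intro x hx
  exact (IntermediateField.mem_fixedField_iff _ _).1 (h2 hx) _ (Subgroup.mem_zpowers _)

/-- **Change of the base field** -/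
theorem transfer {F0 T Ω G : Type} [Field F0] [Field T] [Field Ω] [Algebra F0 Ω] [Algebra T Ω]
    [Algebra F0 T] [IsScalarTower F0 T Ω] (M0 : IntermediateField F0 Ω)
    [Algebra.IsAlgebraic F0 M0] [Group G] [TopologicalSpace G] [IsTopologicalGroup G]
    (φ : G →* (M0 ≃ₐ[F0] M0)) (hφ : Continuous φ)
    (hT : ∀ x : T, ∃ h : algebraMap T Ω x ∈ M0, ∀ g, φ g ⟨_, h⟩ = ⟨_, h⟩) :
    ∃ (E2 : IntermediateField T Ω) (φ2 : G →* (E2 ≃ₐ[T] E2)), Algebra.IsAlgebraic T E2 ∧
      Continuous φ2 ∧ (∀ x, x ∈ E2 ↔ x ∈ M0) ∧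
      ∀ g x (h : x ∈ E2) (h' : x ∈ M0), ((φ2 g ⟨x, h⟩ : E2) : Ω) = ((φ g ⟨x, h'⟩ : M0) : Ω) := by
  let E2 : IntermediateField T Ω :=
    { carrier := M0
      mul_mem' := fun {x y} hx hy => M0.mul_mem hx hy
      add_mem' := fun {x y} hx hy => M0.add_mem hx hy
      algebraMap_mem' := fun c => (hT c).1
      inv_mem' := fun x hx => M0.inv_mem hx }
  have hmem : ∀ x, x ∈ E2 ↔ x ∈ M0 := fun x => Iff.rfl
  let f : G → E2 → E2 := fun g x => ⟨((φ g ⟨(x : Ω), x.2⟩ : M0) : Ω), (φ g ⟨(x : Ω), x.2⟩ : M0).2⟩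
  have hf : ∀ g x, ((f g x : E2) : Ω) = ((φ g ⟨(x : Ω), x.2⟩ : M0) : Ω) := fun g x => rfl
  have hff : ∀ g h x, f (g * h) x = f g (f h x) := by
    intro g h x
    apply Subtype.ext
    rw [hf, hf]
    rw [map_mul]
    rfl
  have hf1 : ∀ x, f 1 x = x := by
    intro x
    apply Subtype.ext
    rw [hf, map_one]
    rfl
  let φ2 : G →* (E2 ≃ₐ[T] E2) :=
    { toFun := fun g =>
        { toFun := f g
          invFun := f g⁻¹
          left_inv := fun x => by rw [← hff, inv_mul_cancel, hf1]
          right_inv := fun x => by rw [← hff, mul_inv_cancel, hf1]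
          map_mul' := fun x y => Subtype.ext (by
            change ((φ g (⟨(x : Ω), x.2⟩ * ⟨(y : Ω), y.2⟩) : M0) : Ω) = _
            rw [map_mul]
            rfl)
          map_add' := fun x y => Subtype.ext (by
            change ((φ g (⟨(x : Ω), x.2⟩ + ⟨(y : Ω), y.2⟩) : M0) : Ω) = _
            rw [map_add]
            rfl)
          commutes' := fun c => Subtype.ext (by
            obtain ⟨h, h'⟩ := hT c
            change ((φ g ⟨algebraMap T Ω c, h⟩ : M0) : Ω) = algebraMap T Ω c
            rw [h']) }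
      map_one' := AlgEquiv.ext fun x => hf1 x
      map_mul' := fun g h => AlgEquiv.ext fun x => hff g h x }
  have hφ2 : ∀ g x, φ2 g x = f g x := fun g x => rfl
  refine ⟨E2, φ2, ⟨fun x => ?_⟩, ?_, hmem, fun g x h h' => rfl⟩
  · have h1 : IsAlgebraic F0 (⟨(x : Ω), x.2⟩ : M0) := Algebra.IsAlgebraic.isAlgebraic _
    have h2 : IsAlgebraic F0 (x : Ω) := h1.algebraMap
    have h3 : IsAlgebraic T (x : Ω) := h2.tower_top T
    exact (isAlgebraic_algebraMap_iff (algebraMap E2 Ω).injective).1 h3
  · apply cont_of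
    intro x
    have h1 := (fix_open φ hφ (⟨(x : Ω), x.2⟩ : M0)).mem_nhds
      (show (1 : G) ∈ {g | φ g (⟨(x : Ω), x.2⟩ : M0) = ⟨(x : Ω), x.2⟩} by
        change φ 1 _ = _; rw [map_one]
        rfl)
    refine Filter.mem_of_superset h1 fun g hg => ?_
    have hg' : φ g (⟨(x : Ω), x.2⟩ : M0) = ⟨(x : Ω), x.2⟩ := hg
    change φ2 g x = x
    rw [hφ2]
    apply Subtype.ext
    rw [hf, hg']

section

variable {k K Ω : Type} [Field k] [Field K] [Field Ω] [Algebra k K] [Algebra K Ω] [Algebra k Ω]
  [IsScalarTower k K Ω]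

lemma alg_of (g : algebraicClosure K Ω ≃ₐ[K] algebraicClosure K Ω) (x : algebraicClosure k Ω) :
    ((g (Pool.Agent.Helper88.BL.inc K x) : algebraicClosure K Ω) : Ω) ∈ algebraicClosure k Ω := by
  rw [mem_algebraicClosure_iff]
  have tow : IsScalarTower k (algebraicClosure K Ω) Ω :=
    IsScalarTower.of_algebraMap_eq fun _ => rfl
  let g' : algebraicClosure K Ω →ₐ[k] algebraicClosure K Ω :=
    (g : algebraicClosure K Ω →ₐ[K] algebraicClosure K Ω).restrictScalars k
  let i : algebraicClosure K Ω →ₐ[k] Ω := IsScalarTower.toAlgHom k (algebraicClosure K Ω) Ω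
  have h1 : IsAlgebraic k x := Algebra.IsAlgebraic.isAlgebraic x
  exact h1.algHom ((i.comp g').comp (Pool.Agent.Helper88.BL.incHom k K Ω))

/-- restriction to the algebraic closure of `k` -/
theorem exists_restr (g : algebraicClosure K Ω ≃ₐ[K] algebraicClosure K Ω) :
    ∃ g₀ : algebraicClosure k Ω ≃ₐ[k] algebraicClosure k Ω,
      ∀ (x : algebraicClosure k Ω) (y : algebraicClosure K Ω), (y : Ω) = (x : Ω) →
        ((g y : algebraicClosure K Ω) : Ω) = ((g₀ x : algebraicClosure k Ω) : Ω) := by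
  have key : ∀ (g : algebraicClosure K Ω ≃ₐ[K] algebraicClosure K Ω) (x : algebraicClosure k Ω),
      g.symm (Pool.Agent.Helper88.BL.inc K
        (⟨((g (Pool.Agent.Helper88.BL.inc K x) : algebraicClosure K Ω) : Ω), alg_of g x⟩ :
          algebraicClosure k Ω)) = Pool.Agent.Helper88.BL.inc K x := by
    intro g x
    have e : (Pool.Agent.Helper88.BL.inc K
        (⟨((g (Pool.Agent.Helper88.BL.inc K x) : algebraicClosure K Ω) : Ω), alg_of g x⟩ :
          algebraicClosure k Ω)) = g (Pool.Agent.Helper88.BL.inc K x) := Subtype.ext rfl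
    rw [e, AlgEquiv.symm_apply_apply]
  let g₀ : algebraicClosure k Ω ≃ₐ[k] algebraicClosure k Ω :=
    { toFun := fun x => ⟨((g (Pool.Agent.Helper88.BL.inc K x) : algebraicClosure K Ω) : Ω), alg_of g x⟩
      invFun := fun x => ⟨((g.symm (Pool.Agent.Helper88.BL.inc K x) : algebraicClosure K Ω) : Ω),
        alg_of g.symm x⟩
      left_inv := fun x => Subtype.ext (congrArg (fun z : algebraicClosure K Ω => (z : Ω)) (key g x))
      right_inv := fun x => Subtype.ext (congrArg (fun z : algebraicClosure K Ω => (z : Ω))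
        (key g.symm x))
      map_mul' := fun x y => Subtype.ext (by
        change ((g (Pool.Agent.Helper88.BL.inc K x * Pool.Agent.Helper88.BL.inc K y) :
          algebraicClosure K Ω) : Ω) = _
        rw [map_mul]
        rfl)
      map_add' := fun x y => Subtype.ext (by
        change ((g (Pool.Agent.Helper88.BL.inc K x + Pool.Agent.Helper88.BL.inc K y) :
          algebraicClosure K Ω) : Ω) = _
        rw [map_add]
        rfl)
      commutes' := fun c => Subtype.ext (by
        change ((g (Pool.Agent.Helper88.BL.incHom k K Ω (algebraMap k _ c)) :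
          algebraicClosure K Ω) : Ω) = _
        rw [AlgHom.commutes, IsScalarTower.algebraMap_apply k K (algebraicClosure K Ω),
          AlgEquiv.commutes, ← IsScalarTower.algebraMap_apply]
        rfl) }
  refine ⟨g₀, fun x y hxy => ?_⟩
  have e : y = Pool.Agent.Helper88.BL.inc K x := Subtype.ext hxy
  rw [e]
  rfl

end

end Pool.Agent.Helper88.MT
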