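import Pool.Agent.Helper88.MT.Abs
import Pool.Agent.Helper88.MT.Tr
import Pool.Agent.Helper88.MT.Loc

/-!
# Birational sections which lift modulo two over `k(t)`
-/

set_option autoImplicit false
set_option linter.unusedSectionVars false

open Polynomial IntermediateField
open Pool.Agent.TH954 Pool.Agent.Helper39.BS

namespace Pool.Agent.Helper88.MT

section

variable {k F Ω : Type} [Field k] [NumberField k] [Field F] [Field Ω] [Algebra k F] [Algebra F Ω]
  [Algebra k Ω] [IsScalarTower k F Ω] [IsAlgClosed Ω]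

/-- the section in the sense of the library -/
def toG (s : (algebraicClosure k Ω ≃ₐ[k] algebraicClosure k Ω) →*
      (algebraicClosure F Ω ≃ₐ[F] algebraicClosure F Ω)) (hs : Continuous s)
    (hsec : ∀ (g : algebraicClosure k Ω ≃ₐ[k] algebraicClosure k Ω) (x : algebraicClosure k Ω)
      (hx : (x : Ω) ∈ algebraicClosure F Ω),
      ((s g ⟨x, hx⟩ : algebraicClosure F Ω) : Ω) = ((g x : algebraicClosure k Ω) : Ω)) :
    GalSection k F (algebraicClosure F Ω) (algebraicClosure k Ω) where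
  j := Pool.Agent.Helper88.BL.incHom k F Ω
  s := s
  cont := hs
  sec := fun g x => Subtype.ext (hsec g x (Pool.Agent.Helper88.BL.inc F x).2)

instance towAC : IsScalarTower k F (algebraicClosure F Ω) := by
  exact IsScalarTower.of_algebraMap_eq fun c => Subtype.ext (IsScalarTower.algebraMap_apply k F Ω c)

/-- **Interpolation** for sections in `Ω`. -/
theorem of_interp' (hF : ∃ t : F, Transcendental k t ∧
      Algebra.IsAlgebraic (IntermediateField.adjoin k {t}) F)
    (s : (algebraicClosure k Ω ≃ₐ[k] algebraicClosure k Ω) →*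
      (algebraicClosure F Ω ≃ₐ[F] algebraicClosure F Ω)) (hs : Continuous s)
    (hsec : ∀ (g : algebraicClosure k Ω ≃ₐ[k] algebraicClosure k Ω) (x : algebraicClosure k Ω)
      (hx : (x : Ω) ∈ algebraicClosure F Ω),
      ((s g ⟨x, hx⟩ : algebraicClosure F Ω) : Ω) = ((g x : algebraicClosure k Ω) : Ω))
    {x : F} (hx : Transcendental k x) (f : k[X]) (hf : f ≠ 0) (S : Finset k)
    (H : ∀ c ∉ S, ∃ w : algebraicClosure F Ω, (∀ g, s g w = w) ∧
      algebraMap F Ω (x - algebraMap k F c) = algebraMap k Ω (f.eval c) * (w : Ω) ^ 2) :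
    ∃! O : ValuationSubring F, (O ≠ ⊤ ∧ (∀ c : k, algebraMap k F c ∈ O) ∧
      (∀ a ∈ O, ∃ c : k, O.valuation (a - algebraMap k F c) < 1)) ∧
      ∃ W : ValuationSubring (algebraicClosure F Ω), W.comap (algebraMap F _) = O ∧
        ∀ (g : algebraicClosure k Ω ≃ₐ[k] algebraicClosure k Ω) (x : algebraicClosure F Ω),
          (s g x ∈ W ↔ x ∈ W) := by
  obtain ⟨O, hO1, hO2⟩ := of_interp (K := k) (Ω := algebraicClosure F Ω)
    (B := algebraicClosure k Ω) hF (toG s hs hsec) hx f hf S (fun c hc => by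
      obtain ⟨w, hw, h1⟩ := H c hc
      exact ⟨w, hw, Subtype.ext h1⟩)
  obtain ⟨h1, h2, h3, h4⟩ := hO1
  refine ⟨O, ⟨⟨h1, h2, h3⟩, h4⟩, ?_⟩
  rintro O' ⟨⟨h1', h2', h3'⟩, h4'⟩
  exact hO2 O' ⟨h1', h2', h3', h4'⟩

/-- **Lifting modulo two of birational sections** -/
theorem bir_two
    (s : (algebraicClosure k Ω ≃ₐ[k] algebraicClosure k Ω) →*
      (algebraicClosure F Ω ≃ₐ[F] algebraicClosure F Ω)) (hs : Continuous s)
    (hsec : ∀ (g : algebraicClosure k Ω ≃ₐ[k] algebraicClosure k Ω) (x : algebraicClosure k Ω)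
      (hx : (x : Ω) ∈ algebraicClosure F Ω),
      ((s g ⟨x, hx⟩ : algebraicClosure F Ω) : Ω) = ((g x : algebraicClosure k Ω) : Ω))
    (t : Ω) (ht : Transcendental F t) (K : IntermediateField k Ω)
    (hKdef : K = IntermediateField.adjoin k {t}) (E0 : IntermediateField F Ω)
    (hE0def : E0 = IntermediateField.adjoin F {t})
    (F₂ : IntermediateField E0 Ω) [IsGalois E0 F₂]
    (hF₂ : ∀ x ∈ algebraicClosure F Ω, x ∈ F₂)
    (hF₂' : ∀ p q r u : Ω, p ∈ E0 → q ∈ E0 → r ^ 2 ∈ E0 → u ^ 2 = p + q * r → u ∈ F₂)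
    (s₂ : (algebraicClosure K Ω ≃ₐ[K] algebraicClosure K Ω) →* (F₂ ≃ₐ[E0] F₂))
    (hs₂ : Continuous s₂)
    (hsec₂ : ∀ (g : algebraicClosure K Ω ≃ₐ[K] algebraicClosure K Ω)
      (x : algebraicClosure K Ω) (hx : (x : Ω) ∈ F₂),
      ((s₂ g ⟨x, hx⟩ : F₂) : Ω) = ((g x : algebraicClosure K Ω) : Ω))
    (hlift : ∀ (g : algebraicClosure K Ω ≃ₐ[K] algebraicClosure K Ω)
      (g₀ : algebraicClosure k Ω ≃ₐ[k] algebraicClosure k Ω),
      (∀ (x : algebraicClosure k Ω) (y : algebraicClosure K Ω),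
        (y : Ω) = (x : Ω) →
        ((g y : algebraicClosure K Ω) : Ω) = ((g₀ x : algebraicClosure k Ω) : Ω)) →
      ∀ x : algebraicClosure F Ω, ((s₂ g ⟨x, hF₂ x x.2⟩ : F₂) : Ω) =
        ((s g₀ x : algebraicClosure F Ω) : Ω))
    {x : F} (hx : Transcendental k x) :
    ∃ (f : k[X]) (S : Finset k), f ≠ 0 ∧
      ∀ c ∉ S, ∃ w : algebraicClosure F Ω, (∀ g, s g w = w) ∧
        algebraMap F Ω (x - algebraMap k F c) = algebraMap k Ω (f.eval c) * (w : Ω) ^ 2 := by
  classical
  have hcF : CharZero F := charZero_of_injective_algebraMap (algebraMap k F).injective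
  have hcΩ : CharZero Ω := charZero_of_injective_algebraMap (algebraMap k Ω).injective
  have htK : t ∈ K := by rw [hKdef]; exact IntermediateField.mem_adjoin_simple_self k t
  have htE : t ∈ E0 := by rw [hE0def]; exact IntermediateField.mem_adjoin_simple_self F t
  have hKE : ∀ z : K, (z : Ω) ∈ E0 := by
    intro z
    have h1 : K ≤ E0.restrictScalars k := by
      rw [hKdef, IntermediateField.adjoin_simple_le_iff]
      exact htE
    exact h1 z.2
  let aK : Algebra K E0 := ((algebraMap K Ω).codRestrict E0 hKE).toAlgebra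
  have tK : IsScalarTower K E0 Ω := IsScalarTower.of_algebraMap_eq fun _ => rfl
  set tt : K := ⟨t, htK⟩ with htt
  have hcK : CharZero K := charZero_of_injective_algebraMap (algebraMap k K).injective
  have hkt : Transcendental k tt := by
    intro h
    apply ht
    have h1 : IsAlgebraic k t := by
      have := h.algebraMap (A := Ω)
      exact this
    exact h1.tower_top F
  have hKr : ∀ z : K, ∃ P Q : k[X], Q ≠ 0 ∧ z * aeval tt Q = aeval tt P := by
    intro z
    obtain ⟨r, q, hz⟩ := (IntermediateField.mem_adjoin_simple_iff k (z : Ω)).1 (hKdef.le z.2)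
    have hcoe : ∀ p : k[X], ((aeval tt p : K) : Ω) = aeval t p := by
      intro p
      exact (aeval_algebraMap_apply Ω tt p).symm
    by_cases hq : aeval t q = 0
    · refine ⟨0, 1, one_ne_zero, ?_⟩
      rw [hq, div_zero] at hz
      have hz0 : z = 0 := Subtype.ext hz
      rw [hz0, map_zero, zero_mul]
    · refine ⟨r, q, fun h => hq (by rw [h, map_zero]), ?_⟩
      apply Subtype.ext
      change (z : Ω) * ((aeval tt q : K) : Ω) = ((aeval tt r : K) : Ω)
      rw [hcoe, hcoe, hz]
      field_simp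
  have hxk : ∀ c : k, x - algebraMap k F c ≠ 0 := by
    intro c h
    apply hx
    rw [sub_eq_zero.1 h]
    exact isAlgebraic_algebraMap c
  -- classes over `k`
  have hcl : ∀ c : k, ∃ a : k, a ≠ 0 ∧ ∃ w : algebraicClosure F Ω, (∀ g, s g w = w) ∧
      algebraMap F Ω (x - algebraMap k F c) = algebraMap k Ω a * (w : Ω) ^ 2 := by
    intro c
    obtain ⟨a, η, ha, hη, h1⟩ := class_two (K := k) (algebraicClosure F Ω) s hs hsec (fun p u hu => by
      rw [mem_algebraicClosure_iff, isAlgebraic_iff_isIntegral]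
      refine IsIntegral.of_pow two_pos ?_
      rw [hu]
      exact isIntegral_algebraMap) _ (hxk c)
    refine ⟨a, ha, η, hη, ?_⟩
    have h2 := congrArg (fun z : algebraicClosure F Ω => (z : Ω)) h1
    rw [IsScalarTower.algebraMap_apply k F Ω]
    exact h2
  choose a ha w hw1 hw2 using hcl
  -- the class over `K`
  set P : E0 := algebraMap F E0 x - ⟨t, htE⟩ with hP
  have hP0 : P ≠ 0 := by
    intro h
    rw [hP, sub_eq_zero] at h
    apply ht
    have h1 := congrArg (fun z : E0 => (z : Ω)) h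
    have h2 : algebraMap F Ω x = t := h1
    rw [← h2]
    exact isAlgebraic_algebraMap x
  obtain ⟨A, η, hA, hη, hPη⟩ := class_two (K := K) F₂ s₂ hs₂ hsec₂ (fun p u hu =>
    hF₂' (p : Ω) 0 0 u p.2 (zero_mem _) (by rw [zero_pow two_ne_zero]; exact zero_mem _) (by
      rw [hu, zero_mul, add_zero]
      rfl)) P hP0
  obtain ⟨f1, g1, hg1, hfg⟩ := hKr A
  have hf1 : f1 ≠ 0 := by
    rintro rfl
    rw [map_zero] at hfg
    rcases mul_eq_zero.1 hfg with h | h
    · exact hA h
    · exact hkt ⟨g1, hg1, h⟩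
  have htc : ∀ c : k, tt - algebraMap k K c ≠ 0 := by
    intro c h
    apply hkt
    rw [sub_eq_zero.1 h]
    exact isAlgebraic_algebraMap c
  have towK : ∀ c : k, algebraMap E0 Ω (algebraMap K E0 (algebraMap k K c)) = algebraMap k Ω c := by
    intro c
    rw [← IsScalarTower.algebraMap_apply K E0 Ω, ← IsScalarTower.algebraMap_apply k K Ω]
  have towF : ∀ z : F, algebraMap E0 Ω (algebraMap F E0 z) = algebraMap F Ω z :=
    fun z => (IsScalarTower.algebraMap_apply F E0 Ω z).symm
  have hRel : ∀ c : k, Rel (f1 * g1) (a c) c := by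
    intro c
    have hwf : ∀ g, s₂ g ⟨(w c : Ω), hF₂ _ (w c).2⟩ = ⟨(w c : Ω), hF₂ _ (w c).2⟩ := by
      intro g
      obtain ⟨g₀, hg₀⟩ := exists_restr (k := k) g
      apply Subtype.ext
      rw [hlift g g₀ hg₀ (w c), hw1 c g₀]
    have hr := core F₂ s₂ hs₂ hsec₂ (fun p q a r u hr hu => hF₂' (p : Ω) (q : Ω) r u p.2 q.2
        (by rw [hr]; exact a.2) hu) P (algebraMap F E0 (x - algebraMap k F c))
      (algebraMap K E0 (tt - algebraMap k K c)) ((_root_.map_ne_zero _).2 (hxk c))
      ((_root_.map_ne_zero _).2 (htc c)) (by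
        apply (algebraMap E0 Ω).injective
        rw [hP, map_sub, map_sub, map_sub, map_sub, towF, towF, map_sub, map_sub, towK,
          ← IsScalarTower.algebraMap_apply k F Ω]
        change _ = t - _
        change _ - (_ - t) = _
        ring) A (algebraMap k K (a c)) (tt - algebraMap k K c)
      ((_root_.map_ne_zero _).2 (ha c)) hA (htc c)
      η ⟨(w c : Ω), hF₂ _ (w c).2⟩ 1 hη hwf (fun g => map_one (s₂ g)) hPη
      (by
        apply Subtype.ext
        change algebraMap E0 Ω (algebraMap F E0 (x - algebraMap k F c)) =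
          algebraMap E0 Ω (algebraMap K E0 (algebraMap k K (a c))) * (w c : Ω) ^ 2
        rw [towF, towK]
        exact hw2 c)
      (by rw [one_pow, mul_one])
    obtain ⟨u, v, w, hne, hw⟩ := polys hkt hKr (f1 := f1 * C (a c)) (g1 := g1)
      (f2 := (X - C c) * C (a c)) hg1 (F1 := A * algebraMap k K (a c))
      (F2 := (tt - algebraMap k K c) * algebraMap k K (a c))
      (by rw [map_mul, aeval_C, ← hfg]; ring)
      (by rw [map_mul, map_sub, aeval_C, aeval_X, aeval_C]) hr
    refine ⟨u, v, w, hne, ?_⟩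
    rw [hw]
    ring
  refine ⟨f1 * g1, (f1 * g1).roots.toFinset, mul_ne_zero hf1 hg1, fun c hc => ?_⟩
  have hfc : (f1 * g1).eval c ≠ 0 := by
    intro h
    apply hc
    rw [Multiset.mem_toFinset, mem_roots (mul_ne_zero hf1 hg1)]
    exact h
  obtain ⟨d, hd⟩ := rel_at (ha c) hfc (hRel c)
  have hfc' : algebraMap k Ω ((f1 * g1).eval c) ≠ 0 := (_root_.map_ne_zero _).2 hfc
  have hdm : algebraMap k Ω (d / (f1 * g1).eval c) ∈ algebraicClosure F Ω := by
    rw [mem_algebraicClosure_iff, IsScalarTower.algebraMap_apply k F Ω]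
    exact isAlgebraic_algebraMap _
  refine ⟨⟨algebraMap k Ω (d / (f1 * g1).eval c), hdm⟩ * w c, fun g => ?_, ?_⟩
  · rw [map_mul, hw1 c g]
    congr 1
    have e : (⟨algebraMap k Ω (d / (f1 * g1).eval c), hdm⟩ : algebraicClosure F Ω) =
        algebraMap F (algebraicClosure F Ω) (algebraMap k F (d / (f1 * g1).eval c)) :=
      Subtype.ext (IsScalarTower.algebraMap_apply k F Ω _)
    rw [e, AlgEquiv.commutes]
  · change _ = algebraMap k Ω ((f1 * g1).eval c) *
      (algebraMap k Ω (d / (f1 * g1).eval c) * (w c : Ω)) ^ 2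
    rw [hw2 c, mul_pow, ← mul_assoc]
    congr 1
    have h1 := congrArg (algebraMap k Ω) hd
    rw [map_mul, map_pow] at h1
    rw [map_div₀, div_pow, ← h1]
    field_simp

end

end Pool.Agent.Helper88.MT
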