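import Pool.Agent.Helper88.MT.Stm

/-!
# The fixed field of a section (variant of the package GAL by helper31)
-/

set_option autoImplicit false

namespace Pool.Agent.Helper88.MT

theorem gal2 {k F N G : Type} [Field k] [Field F] [Field N] [Algebra k F] [Algebra F N]
    [Algebra k N] [IsScalarTower k F N] [IsGalois F N] (B : IntermediateField k N)
    [Group G] [TopologicalSpace G] [CompactSpace G]
    (s : G →* (N ≃ₐ[F] N)) (hs : Continuous s)
    (hsb : ∀ g, (∀ b ∈ B, s g b = b) → g = 1) (y : N) :
    y ∈ Submodule.span (IntermediateField.fixedField s.range : IntermediateField F N)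
      (B : Set N) := by
  let H : ClosedSubgroup (N ≃ₐ[F] N) := ⟨s.range, (isCompact_range hs).isClosed⟩
  have hH : (IntermediateField.fixedField s.range : IntermediateField F N).fixingSubgroup =
      s.range := InfiniteGalois.fixingSubgroup_fixedField H
  set L : IntermediateField F N := IntermediateField.fixedField s.range with hL
  let E : IntermediateField L N := IntermediateField.adjoin L (B : Set N)
  have hE : E.fixingSubgroup = ⊥ := by
    rw [eq_bot_iff]
    intro σ hσ
    rw [Subgroup.mem_bot]
    have h1 : (σ.restrictScalars F : N ≃ₐ[F] N) ∈ L.fixingSubgroup := by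
      rw [IntermediateField.mem_fixingSubgroup_iff]
      intro x hx
      exact σ.commutes ⟨x, hx⟩
    rw [hH] at h1
    obtain ⟨g, hg⟩ := h1
    have h2 : g = 1 := by
      apply hsb
      intro b hb
      rw [hg]
      rw [IntermediateField.mem_fixingSubgroup_iff] at hσ
      exact hσ _ (IntermediateField.subset_adjoin _ _ hb)
    rw [h2, map_one] at hg
    ext x
    exact (AlgEquiv.congr_fun hg x).symm
  have hE1 : E = ⊤ := by
    rw [← InfiniteGalois.fixedField_fixingSubgroup E, hE, IntermediateField.fixedField_bot]
  have halg : ∀ x ∈ (B : Set N), IsAlgebraic L x := fun x _ =>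
    ((Algebra.IsAlgebraic.isAlgebraic (R := F) x)).tower_top L
  have h5 : y ∈ Algebra.adjoin L (B : Set N) := by
    rw [← IntermediateField.adjoin_toSubalgebra_of_isAlgebraic halg]
    change y ∈ E
    rw [hE1]
    exact IntermediateField.mem_top
  have h6 : y ∈ Subalgebra.toSubmodule (Algebra.adjoin L (B : Set N)) := h5
  rw [Algebra.adjoin_eq_span] at h6
  have h7 : ((Submonoid.closure (B : Set N) : Submonoid N) : Set N) = (B : Set N) := by
    have h8 : Submonoid.closure (B : Set N) = B.toSubfield.toSubring.toSubmonoid :=
      Submonoid.closure_eq B.toSubfield.toSubring.toSubmonoid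
    rw [h8]
    rfl
  rw [h7] at h6
  exact h6

end Pool.Agent.Helper88.MT
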