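import Pool.Agent.Helper88.MT.Abs
import Pool.Agent.Helper88.MT.Tr
import Pool.Agent.Helper88.MT.Gal2

/-!
# Sections which lift modulo two
-/

set_option autoImplicit false
set_option linter.unusedSectionVars false

open Polynomial IntermediateField

namespace Pool.Agent.Helper88.MT

lemma val_aux {F : Type} [Field F] (O : ValuationSubring F) {z : F} (h : ¬ O.valuation z < 1) :
    z ≠ 0 ∧ z⁻¹ ∈ O := by
  rw [not_lt] at h
  have hz : z ≠ 0 := by
    rintro rfl
    rw [map_zero] at h
    exact absurd h (not_le.2 zero_lt_one)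
  refine ⟨hz, ?_⟩
  rw [← ValuationSubring.valuation_le_one_iff, map_inv₀]
  exact inv_le_one_of_one_le₀ h

lemma val_aux2 {F : Type} [Field F] (O : ValuationSubring F) {z : F} (h : O.valuation z < 1)
    (hz : z ≠ 0) (h' : z⁻¹ ∈ O) : False := by
  rw [← ValuationSubring.valuation_le_one_iff, map_inv₀] at h'
  have h1 : O.valuation z * (O.valuation z)⁻¹ = 1 :=
    mul_inv_cancel₀ ((Valuation.ne_zero_iff _).2 hz)
  have h2 : O.valuation z * (O.valuation z)⁻¹ < 1 := by
    calc O.valuation z * (O.valuation z)⁻¹ ≤ O.valuation z * 1 := mul_le_mul_right h' _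
      _ < 1 := by rwa [mul_one]
  rw [h1] at h2
  exact lt_irrefl _ h2

theorem main (hT : S_two) (hlam : S_lam) (hext : S_ext)
    {k F Ω : Type} [Field k] [NumberField k] [Field F] [Field Ω] [Algebra k F] [Algebra F Ω]
    [Algebra k Ω] [IsScalarTower k F Ω] [IsAlgClosed Ω]
    (hF : ∃ x : F, Transcendental k x)
    (F' : IntermediateField F Ω) [IsGalois F F'] (hk : ∀ z ∈ algebraicClosure k Ω, z ∈ F')
    (s : (algebraicClosure k Ω ≃ₐ[k] algebraicClosure k Ω) →* (F' ≃ₐ[F] F')) (hs : Continuous s)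
    (hsec : ∀ (g : algebraicClosure k Ω ≃ₐ[k] algebraicClosure k Ω) (x : algebraicClosure k Ω)
      (hx : (x : Ω) ∈ F'), ((s g ⟨x, hx⟩ : F') : Ω) = ((g x : algebraicClosure k Ω) : Ω))
    (F₁ : IntermediateField F Ω) [IsGalois F F₁] (hF₁ : F' ≤ F₁)
    (hF₁' : ∀ x : Ω, x ^ 2 ∈ F' → x ∈ F₁)
    (s₁ : (algebraicClosure k Ω ≃ₐ[k] algebraicClosure k Ω) →* (F₁ ≃ₐ[F] F₁))
    (hs₁ : Continuous s₁)
    (hs₁' : ∀ (g : algebraicClosure k Ω ≃ₐ[k] algebraicClosure k Ω) (x : F'),
      ((s₁ g ⟨x, hF₁ x.2⟩ : F₁) : Ω) = ((s g x : F') : Ω))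
    (t : Ω) (ht : Transcendental F t) (K : IntermediateField k Ω)
    (hKdef : K = IntermediateField.adjoin k {t}) (E0 : IntermediateField F Ω)
    (hE0def : E0 = IntermediateField.adjoin F {t})
    (F₂ : IntermediateField E0 Ω) [IsGalois E0 F₂]
    (hF₂ : ∀ x ∈ F₁, x ∈ F₂)
    (hF₂' : ∀ p q r u : Ω, p ∈ IntermediateField.adjoin F' {t} →
      q ∈ IntermediateField.adjoin F' {t} → r ^ 2 ∈ IntermediateField.adjoin F' {t} →
      u ^ 2 = p + q * r → u ∈ F₂)
    (s₂ : (algebraicClosure K Ω ≃ₐ[K] algebraicClosure K Ω) →* (F₂ ≃ₐ[E0] F₂))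
    (hs₂ : Continuous s₂)
    (hsec₂ : ∀ (g : algebraicClosure K Ω ≃ₐ[K] algebraicClosure K Ω)
      (x : algebraicClosure K Ω) (hx : (x : Ω) ∈ F₂),
      ((s₂ g ⟨x, hx⟩ : F₂) : Ω) = ((g x : algebraicClosure K Ω) : Ω))
    (hlift : ∀ (g : algebraicClosure K Ω ≃ₐ[K] algebraicClosure K Ω)
      (g₀ : algebraicClosure k Ω ≃ₐ[k] algebraicClosure k Ω),
      (∀ (x : algebraicClosure k Ω) (y : algebraicClosure K Ω),
        (y : Ω) = (x : Ω) →
        ((g y : algebraicClosure K Ω) : Ω) = ((g₀ x : algebraicClosure k Ω) : Ω)) →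
      ∀ x : F₁, ((s₂ g ⟨x, hF₂ x x.2⟩ : F₂) : Ω) = ((s₁ g₀ x : F₁) : Ω)) :
    ∃! O : ValuationSubring F, (O ≠ ⊤ ∧ (∀ c : k, algebraMap k F c ∈ O) ∧
      (∀ a ∈ O, ∃ c : k, O.valuation (a - algebraMap k F c) < 1)) ∧
      (∃ W : ValuationSubring F', W.comap (algebraMap F F') = O ∧
        ∀ (g : algebraicClosure k Ω ≃ₐ[k] algebraicClosure k Ω) (x : F'), (s g x ∈ W ↔ x ∈ W)) ∧
      ∀ (x : F) (c : k), c ≠ 0 → O.valuation (x - algebraMap k F c) < 1 →
        ∃ w : F₁, (∀ g : algebraicClosure k Ω ≃ₐ[k] algebraicClosure k Ω, s₁ g w = w) ∧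
          algebraMap F Ω x = algebraMap k Ω c * (w : Ω) ^ 2 := by
  classical
  have hcF : CharZero F := charZero_of_injective_algebraMap (algebraMap k F).injective
  have hcΩ : CharZero Ω := charZero_of_injective_algebraMap (algebraMap k Ω).injective
  set L : IntermediateField F F' := IntermediateField.fixedField s.range with hLdef
  have hL : ∀ (x : L) g, s g (x : F') = x := fun x g =>
    (IntermediateField.mem_fixedField_iff _ _).1 x.2 _ ⟨g, rfl⟩
  have hLΩ : ∀ x : L, algebraMap L Ω x = ((x : F') : Ω) := fun x => rfl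
  have tkF' : IsScalarTower k F' Ω := IsScalarTower.of_algebraMap_eq fun c => by
    rw [IsScalarTower.algebraMap_apply k F F', ← IsScalarTower.algebraMap_apply F F' Ω]
    exact IsScalarTower.algebraMap_apply k F Ω c
  have tkL : IsScalarTower k L Ω := IsScalarTower.of_algebraMap_eq fun c =>
    IsScalarTower.algebraMap_apply k F' Ω c
  -- over `k`
  obtain ⟨EM, σ, hEMa, hσ, hEM, hσs⟩ := transfer (T := L) F₁ s₁ hs₁ (fun x => ⟨hF₁ (x : F').2,
    fun g => Subtype.ext (by
      have h1 := hs₁' g (x : F')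
      rw [hL x g] at h1
      exact h1)⟩)
  -- over `K = k(t)`
  obtain ⟨T, hTdef⟩ : ∃ T : IntermediateField L Ω, T = IntermediateField.adjoin L {t} := ⟨_, rfl⟩
  have htK : t ∈ K := by rw [hKdef]; exact IntermediateField.mem_adjoin_simple_self k t
  have htE : t ∈ E0 := by rw [hE0def]; exact IntermediateField.mem_adjoin_simple_self F t
  have htT : t ∈ T := by rw [hTdef]; exact IntermediateField.mem_adjoin_simple_self L t
  have hE0T : ∀ x : E0, (x : Ω) ∈ T := by
    intro x
    have h1 : E0 ≤ T.restrictScalars F := by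
      rw [hE0def, IntermediateField.adjoin_simple_le_iff]
      exact htT
    exact h1 x.2
  have hKT : ∀ x : K, (x : Ω) ∈ T := by
    intro x
    have h1 : K ≤ T.restrictScalars k := by
      rw [hKdef, IntermediateField.adjoin_simple_le_iff]
      exact htT
    exact h1 x.2
  have hTF' : ∀ x : T, (x : Ω) ∈ IntermediateField.adjoin F' {t} := by
    intro x
    have h1 : T ≤ (IntermediateField.adjoin F' {t}).restrictScalars L := by
      rw [hTdef, IntermediateField.adjoin_simple_le_iff]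
      exact IntermediateField.mem_adjoin_simple_self F' t
    exact h1 x.2
  let aE : Algebra E0 T := ((algebraMap E0 Ω).codRestrict T hE0T).toAlgebra
  have tE : IsScalarTower E0 T Ω := IsScalarTower.of_algebraMap_eq fun _ => rfl
  let aK : Algebra K T := ((algebraMap K Ω).codRestrict T hKT).toAlgebra
  have tK : IsScalarTower K T Ω := IsScalarTower.of_algebraMap_eq fun _ => rfl
  -- elements fixed by `s₂`
  have hfix1 : ∀ x : L, ∃ h : ((x : F') : Ω) ∈ F₂, ∀ g,
      s₂ g (⟨((x : F') : Ω), h⟩ : F₂) = (⟨((x : F') : Ω), h⟩ : F₂) := by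
    intro x
    refine ⟨hF₂ _ (hF₁ (x : F').2), fun g => ?_⟩
    obtain ⟨g₀, hg₀⟩ := exists_restr (k := k) g
    apply Subtype.ext
    have h1 := hlift g g₀ hg₀ ⟨((x : F') : Ω), hF₁ (x : F').2⟩
    rw [hs₁' g₀ (x : F'), hL x g₀] at h1
    exact h1
  let Fx : IntermediateField L Ω :=
    { carrier := {x | ∃ h : x ∈ F₂, ∀ g, s₂ g ⟨x, h⟩ = ⟨x, h⟩}
      mul_mem' := fun {x y} hx hy => by
        obtain ⟨h1, h2⟩ := hx
        obtain ⟨h3, h4⟩ := hy
        refine ⟨mul_mem h1 h3, fun g => ?_⟩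
        have e : (⟨x * y, mul_mem h1 h3⟩ : F₂) = ⟨x, h1⟩ * ⟨y, h3⟩ := rfl
        rw [e, map_mul, h2, h4]
      add_mem' := fun {x y} hx hy => by
        obtain ⟨h1, h2⟩ := hx
        obtain ⟨h3, h4⟩ := hy
        refine ⟨add_mem h1 h3, fun g => ?_⟩
        have e : (⟨x + y, add_mem h1 h3⟩ : F₂) = ⟨x, h1⟩ + ⟨y, h3⟩ := rfl
        rw [e, map_add, h2, h4]
      algebraMap_mem' := fun c => hfix1 c
      inv_mem' := fun x hx => by
        obtain ⟨h1, h2⟩ := hx
        refine ⟨inv_mem h1, fun g => ?_⟩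
        have e : (⟨x⁻¹, inv_mem h1⟩ : F₂) = (⟨x, h1⟩ : F₂)⁻¹ := rfl
        rw [e, map_inv₀, h2] }
  have hTFx : T ≤ Fx := by
    rw [hTdef, IntermediateField.adjoin_simple_le_iff]
    have h1 : (algebraMap E0 F₂ ⟨t, htE⟩ : Ω) = t := rfl
    refine ⟨(algebraMap E0 F₂ ⟨t, htE⟩).2, fun g => ?_⟩
    exact (s₂ g).commutes ⟨t, htE⟩
  obtain ⟨E2, φ, hE2a, hφ, hE2, hφs⟩ := transfer (T := T) F₂ s₂ hs₂ (fun x => hTFx x.2)
  -- the axioms
  have halgF' : ∀ x : F', IsAlgebraic F (x : Ω) := fun x =>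
    (Algebra.IsAlgebraic.isAlgebraic (R := F) x).algebraMap
  have A : Ax k L (fixR EM σ) := by
    refine ax (K := K) (T := T) hT EM (fun p u hu => ?_) σ hσ (fun g z hz => ?_) ⟨t, htK⟩ ?_ ?_ ?_
      E2 (fun p q a r u hr hu => ?_) φ hφ (fun g z hz => ?_) ?_
    · rw [hEM]
      apply hF₁'
      rw [hu]
      exact (p : F').2
    · rw [hσs g z hz (hF₁ (hk z z.2))]
      rw [← hsec g z (hk z z.2), ← hs₁' g ⟨z, hk z z.2⟩]
    · intro h
      apply ht
      have h1 : IsAlgebraic k t := by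
        have := h.algebraMap (A := Ω)
        exact this
      exact h1.tower_top F
    · intro z
      obtain ⟨r, q, hz⟩ := (IntermediateField.mem_adjoin_simple_iff k (z : Ω)).1 (hKdef.le z.2)
      have hcoe : ∀ p : k[X], ((aeval (⟨t, htK⟩ : K) p : K) : Ω) = aeval t p := by
        intro p
        exact (aeval_algebraMap_apply Ω (⟨t, htK⟩ : K) p).symm
      by_cases hq : aeval t q = 0
      · refine ⟨0, 1, one_ne_zero, ?_⟩
        rw [hq, div_zero] at hz
        have hz0 : z = 0 := Subtype.ext hz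
        rw [hz0, map_zero, zero_mul]
      · refine ⟨r, q, fun h => hq (by rw [h, map_zero]), ?_⟩
        apply Subtype.ext
        change (z : Ω) * ((aeval (⟨t, htK⟩ : K) q : K) : Ω) = ((aeval (⟨t, htK⟩ : K) r : K) : Ω)
        rw [hcoe, hcoe, hz]
        field_simp
    · intro x hx
      apply ht
      rw [← show algebraMap K Ω ⟨t, htK⟩ = t from rfl, ← hx, hLΩ]
      exact halgF' x
    · rw [hE2]
      refine hF₂' _ _ r u (hTF' p) (hTF' q) ?_ hu
      rw [hr]
      exact hTF' a
    · rw [hE2] at hz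
      rw [hφs g z ((hE2 _).2 hz) hz]
      exact hsec₂ g z hz
    · intro x hx
      obtain ⟨h1, h2⟩ := (mem_fixR EM σ x).1 hx
      have h1' := (hEM x).1 h1
      refine ⟨(hE2 x).2 (hF₂ x h1'), fun g => ?_⟩
      obtain ⟨g₀, hg₀⟩ := exists_restr (k := k) g
      apply Subtype.ext
      rw [hφs g x _ (hF₂ x h1')]
      have h3 := hlift g g₀ hg₀ ⟨x, h1'⟩
      rw [h3, ← hσs g₀ x h1 h1', h2 g₀]
  obtain ⟨OL, hOL, hOk, hOr⟩ := exists_ring hlam A
  -- the valuation ring of `F'`
  have hspan : ∀ y : F', y ∈ Submodule.span L ((algebraicClosure k F' : IntermediateField k F') :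
      Set F') := by
    intro y
    refine gal2 (k := k) (F := F) (algebraicClosure k F') s hs (fun g hg => ?_) y
    ext z
    have hz : (⟨(z : Ω), hk z z.2⟩ : F') ∈ algebraicClosure k F' := by
      rw [mem_algebraicClosure_iff]
      have h1 : IsAlgebraic k (z : Ω) := mem_algebraicClosure_iff.1 z.2
      exact (isAlgebraic_algebraMap_iff (R := k) (S := F') (A := Ω)
        (algebraMap F' Ω).injective).1 h1
    have h2 := hg _ hz
    rw [← hsec g z (hk z z.2), h2]
    rfl
  have tkLF' : IsScalarTower k L F' := IsScalarTower.of_algebraMap_eq fun c => by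
    apply (algebraMap F' Ω).injective
    rw [← IsScalarTower.algebraMap_apply k F' Ω, IsScalarTower.algebraMap_apply k L Ω]
    rfl
  obtain ⟨W, hW, hWs⟩ := hext k L F' (algebraicClosure k F') hspan OL hOk hOr
  have hcF' : ∀ x : F, algebraMap F F' x = algebraMap L F' (algebraMap F L x) := fun x =>
    IsScalarTower.algebraMap_apply F L F' x
  have hckL : ∀ c : k, algebraMap F L (algebraMap k F c) = algebraMap k L c := by
    intro c
    apply (algebraMap L Ω).injective
    rw [← IsScalarTower.algebraMap_apply F L Ω, ← IsScalarTower.algebraMap_apply k F Ω,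
      ← IsScalarTower.algebraMap_apply k L Ω]
  have hO : ∀ x : F, x ∈ W.comap (algebraMap F F') ↔ algebraMap F L x ∈ OL := by
    intro x
    rw [ValuationSubring.mem_comap, hcF', ← ValuationSubring.mem_comap, hW]
  have hres : ∀ a ∈ W.comap (algebraMap F F'), ∃ c : k,
      (W.comap (algebraMap F F')).valuation (a - algebraMap k F c) < 1 ∧
      (a ≠ algebraMap k F c → (a - algebraMap k F c)⁻¹ ∉ W.comap (algebraMap F F')) := by
    intro a ha
    obtain ⟨c, hc⟩ := hOr _ ((hO a).1 ha)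
    rw [← hckL, ← map_sub] at hc
    have key : a - algebraMap k F c ≠ 0 → (a - algebraMap k F c)⁻¹ ∉ W.comap (algebraMap F F') := by
      intro h1 h2
      rw [hO, map_inv₀] at h2
      exact val_aux2 OL hc ((_root_.map_ne_zero _).2 h1) h2
    refine ⟨c, ?_, fun h => key (sub_ne_zero.2 h)⟩
    by_contra hcon
    obtain ⟨h1, h2⟩ := val_aux _ hcon
    exact key h1 h2
  -- the classes
  have hcFL : ∀ (x : F) (c : k), algebraMap F L x - algebraMap k L c =
      algebraMap F L (x - algebraMap k F c) := by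
    intro x c
    rw [map_sub, hckL]
  have hFne : ∀ (x : F) (c : k), algebraMap F L x ≠ algebraMap k L c ↔ x ≠ algebraMap k F c := by
    intro x c
    rw [← hckL]
    exact (algebraMap F L).injective.ne_iff
  have towFL : ∀ x : F, algebraMap L Ω (algebraMap F L x) = algebraMap F Ω x :=
    fun x => (IsScalarTower.algebraMap_apply F L Ω x).symm
  have hcl1 : ∀ (x : F) (c : k), c ≠ 0 → (W.comap (algebraMap F F')).valuation
      (x - algebraMap k F c) < 1 → V (fixR EM σ) (algebraMap F L x) c := by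
    intro x c hc hv
    have hxc : x - algebraMap k F c ∈ W.comap (algebraMap F F') :=
      (ValuationSubring.valuation_le_one_iff _ _).1 hv.le
    have hx : x ∈ W.comap (algebraMap F F') := by
      have h1 : algebraMap k F c ∈ W.comap (algebraMap F F') := by
        rw [hO, hckL]
        exact hOk c
      have := add_mem hxc h1
      rwa [sub_add_cancel] at this
    obtain ⟨θ, hθ⟩ := (hOL _).1 ((hO x).1 hx)
    have hθc : θ = c := by
      by_contra hne
      have hV := V_aff hθ 1 (-c) one_ne_zero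
      have e1 : 1 * θ + -c = θ - c := by ring
      have e2 : algebraMap k L 1 * algebraMap F L x + algebraMap k L (-c) =
          algebraMap F L (x - algebraMap k F c) := by
        rw [← hcFL, map_one, map_neg]
        ring
      rw [e1, e2] at hV
      have hinv : (algebraMap F L (x - algebraMap k F c))⁻¹ ∈ OL := by
        rw [hOL]
        rcases A.interp (algebraMap F L (x - algebraMap k F c))⁻¹ with h | h
        · exact h
        · exfalso
          have h1 := V_inv_of_I h
          rw [inv_inv] at h1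
          exact hne (sub_eq_zero.1 (V_unique hlam A hV h1))
      have hx0 : x - algebraMap k F c ≠ 0 := by
        intro h0
        have h1 : x = algebraMap k F c := sub_eq_zero.1 h0
        rw [h1, hckL] at hθ
        exact hne (V_unique hlam A hθ (V_base c))
      refine val_aux2 _ hv hx0 ?_
      rw [hO, map_inv₀]
      exact hinv
    rwa [hθc] at hθ
  have hcl2 : ∀ (x : F) (c : k), c ≠ 0 → V (fixR EM σ) (algebraMap F L x) c →
      ∃ w : F₁, (∀ g : algebraicClosure k Ω ≃ₐ[k] algebraicClosure k Ω, s₁ g w = w) ∧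
          algebraMap F Ω x = algebraMap k Ω c * (w : Ω) ^ 2 := by
    intro x c hc hV
    obtain ⟨-, w, hw⟩ := hV 0 (Ne.symm hc)
    obtain ⟨h1, h2⟩ := (mem_fixR EM σ w).1 w.2
    refine ⟨⟨(w : Ω), (hEM _).1 h1⟩, fun g => ?_, ?_⟩
    · apply Subtype.ext
      rw [← hσs g (w : Ω) h1 ((hEM _).1 h1), h2 g]
    · rw [map_zero, sub_zero, sub_zero] at hw
      have h3 := congrArg (fun z : fixR EM σ => (z : Ω)) hw
      have h4 : algebraMap L Ω (algebraMap F L x) = algebraMap k Ω c * (w : Ω) ^ 2 := h3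
      rwa [towFL] at h4
  -- classes determine the values
  have hcl3 : ∀ (O' : ValuationSubring F), (∀ c : k, algebraMap k F c ∈ O') →
      (∀ (x : F) (c : k), c ≠ 0 → O'.valuation (x - algebraMap k F c) < 1 →
        ∃ w : F₁, (∀ g : algebraicClosure k Ω ≃ₐ[k] algebraicClosure k Ω, s₁ g w = w) ∧
          algebraMap F Ω x = algebraMap k Ω c * (w : Ω) ^ 2) →
      ∀ (x : F) (c : k), O'.valuation (x - algebraMap k F c) < 1 →
        V (fixR EM σ) (algebraMap F L x) c := by
    intro O' hk' hc' x c hv c' hcc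
    have hcc' : c - c' ≠ 0 := sub_ne_zero.2 (Ne.symm hcc)
    have e1 : (x - algebraMap k F c') - algebraMap k F (c - c') = x - algebraMap k F c := by
      rw [map_sub]
      ring
    refine ⟨?_, ?_⟩
    · rw [hFne]
      intro h
      have h1 : x - algebraMap k F c = algebraMap k F (c' - c) := by rw [h, map_sub]
      rw [h1] at hv
      refine val_aux2 O' hv ((_root_.map_ne_zero _).2 (sub_ne_zero.2 hcc)) ?_
      rw [← map_inv₀]
      exact hk' _
    · obtain ⟨w, hw1, hw2⟩ := hc' (x - algebraMap k F c') (c - c') hcc' (by rwa [e1])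
      have h1 : (w : Ω) ∈ EM := (hEM _).2 w.2
      refine ⟨⟨(w : Ω), (mem_fixR EM σ _).2 ⟨h1, fun g => ?_⟩⟩, ?_⟩
      · apply Subtype.ext
        rw [hσs g (w : Ω) h1 w.2]
        exact congrArg (fun z : F₁ => (z : Ω)) (hw1 g)
      · rw [hcFL]
        apply Subtype.ext
        change algebraMap L Ω (algebraMap F L (x - algebraMap k F c')) =
          algebraMap k Ω (c - c') * (w : Ω) ^ 2
        rw [towFL]
        exact hw2
  refine ⟨W.comap (algebraMap F F'), ⟨⟨?_, ?_, fun a ha => ?_⟩, ⟨W, rfl, fun g x => ?_⟩,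
    fun x c hc hv => hcl2 x c hc (hcl1 x c hc hv)⟩, ?_⟩
  · intro htop
    obtain ⟨x, hx⟩ := hF
    obtain ⟨c, -, hc⟩ := hres x (by rw [htop]; exact ValuationSubring.mem_top _)
    refine hc (fun h => ?_) (by rw [htop]; exact ValuationSubring.mem_top _)
    apply hx
    rw [h]
    exact isAlgebraic_algebraMap c
  · intro c
    rw [hO, hckL]
    exact hOk c
  · obtain ⟨c, hc, -⟩ := hres a ha
    exact ⟨c, hc⟩
  · let τ : F' ≃ₐ[L] F' := AlgEquiv.ofRingEquiv (f := (s g : F' ≃+* F')) (fun u => hL u g)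
    refine hWs τ (fun b hb => ?_) x
    rw [mem_algebraicClosure_iff] at hb ⊢
    let τk : F' →ₐ[k] F' := (τ : F' →ₐ[L] F').restrictScalars k
    exact hb.algHom τk
  · rintro O' ⟨⟨-, hk', hr'⟩, -, hc'⟩
    have hV := hcl3 O' hk' hc'
    have hle : ∀ x ∈ O', x ∈ W.comap (algebraMap F F') := by
      intro x hx
      obtain ⟨c, hc⟩ := hr' x hx
      rw [hO, hOL]
      exact ⟨c, hV x c hc⟩
    ext x
    refine ⟨hle x, fun hx => ?_⟩
    by_contra hx'
    have hi : x⁻¹ ∈ O' := (O'.mem_or_inv_mem x).resolve_left hx'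
    have hx0 : x ≠ 0 := by
      rintro rfl
      exact hx' (zero_mem _)
    obtain ⟨c, hc⟩ := hr' _ hi
    have hVc := hV _ c hc
    obtain ⟨θ, hθ⟩ := (hOL _).1 ((hO x).1 hx)
    by_cases hc0 : c = 0
    · rw [hc0] at hVc
      have h1 := V_mul hlam A hθ hVc
      rw [map_inv₀, mul_inv_cancel₀ ((_root_.map_ne_zero _).2 hx0), mul_zero] at h1
      have h2 := V_base (L := L) (R := fixR EM σ) (1 : k)
      rw [map_one] at h2
      exact zero_ne_one (V_unique hlam A h1 h2)
    · apply hx'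
      have h1 : O'.valuation (algebraMap k F c) = 1 := by
        refine le_antisymm ((O'.valuation_le_one_iff _).2 (hk' c)) ?_
        have h2 : O'.valuation (algebraMap k F c)⁻¹ ≤ 1 := by
          rw [O'.valuation_le_one_iff, ← map_inv₀]
          exact hk' _
        rw [map_inv₀] at h2
        exact (inv_le_one₀ (zero_lt_iff.2 ((Valuation.ne_zero_iff _).2
          ((_root_.map_ne_zero _).2 hc0)))).1 h2
      have h2 : O'.valuation x⁻¹ = 1 := by
        have e : x⁻¹ = (x⁻¹ - algebraMap k F c) + algebraMap k F c := by ring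
        rw [e, Valuation.map_add_eq_of_lt_right _ (by rwa [h1]), h1]
      rw [← O'.valuation_le_one_iff]
      rw [map_inv₀] at h2
      have h3 : O'.valuation x = 1 := by
        rw [← inv_inv (O'.valuation x), h2, inv_one]
      exact h3.le

end Pool.Agent.Helper88.MT
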