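import Pool.Agent.Helper88.MT.Bir
import Pool.Agent.Helper88.MT.Main

/-!
# The classes of a section of a rational point
-/

set_option autoImplicit false
set_option linter.unusedSectionVars false

open Polynomial IntermediateField

namespace Pool.Agent.Helper88.MT

section

variable {k F Ω : Type} [Field k] [NumberField k] [Field F] [Field Ω] [Algebra k F] [Algebra F Ω]
  [Algebra k Ω] [IsScalarTower k F Ω] [IsAlgClosed Ω]

/-- square roots of elements near `1` are fixed -/
lemma root_near (s : (algebraicClosure k Ω ≃ₐ[k] algebraicClosure k Ω) →*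
      (algebraicClosure F Ω ≃ₐ[F] algebraicClosure F Ω))
    (W : ValuationSubring (algebraicClosure F Ω)) (hk : ∀ c : k, algebraMap k _ c ∈ W)
    (hW : ∀ (g : algebraicClosure k Ω ≃ₐ[k] algebraicClosure k Ω) (x : algebraicClosure F Ω),
      (s g x ∈ W ↔ x ∈ W)) (m : F) (hm : W.valuation (algebraMap F _ m) < 1) :
    ∃ u : algebraicClosure F Ω, (∀ g, s g u = u) ∧ u ^ 2 = 1 + algebraMap F _ m := by
  have hcF : CharZero F := charZero_of_injective_algebraMap (algebraMap k F).injective
  obtain ⟨u', hu'⟩ := IsAlgClosed.exists_pow_nat_eq (algebraMap F Ω (1 + m)) (n := 2) two_pos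
  have hmem : u' ∈ algebraicClosure F Ω := by
    rw [mem_algebraicClosure_iff, isAlgebraic_iff_isIntegral]
    refine IsIntegral.of_pow two_pos ?_
    rw [hu']
    exact isIntegral_algebraMap
  have hu : (⟨u', hmem⟩ : algebraicClosure F Ω) ^ 2 = 1 + algebraMap F _ m := by
    rw [← map_one (algebraMap F (algebraicClosure F Ω)), ← map_add]
    exact Subtype.ext hu'
  have hmul : ∀ a b : algebraicClosure F Ω, W.valuation (a * b) < 1 →
      W.valuation a < 1 ∨ W.valuation b < 1 := by
    intro a b h
    by_contra hcon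
    push Not at hcon
    rw [map_mul] at h
    exact absurd h (not_lt.2 (one_le_mul hcon.1 hcon.2))
  obtain ⟨u, hu2, hu1⟩ : ∃ u : algebraicClosure F Ω, u ^ 2 = 1 + algebraMap F _ m ∧
      W.valuation (u - 1) < 1 := by
    have e : ((⟨u', hmem⟩ : algebraicClosure F Ω) - 1) * (⟨u', hmem⟩ + 1) = algebraMap F _ m := by
      linear_combination hu
    rcases hmul (⟨u', hmem⟩ - 1) (⟨u', hmem⟩ + 1) (by rwa [e]) with h | h
    · exact ⟨_, hu, h⟩
    · refine ⟨-⟨u', hmem⟩, by rw [neg_sq]; exact hu, ?_⟩
      have e2 : -(⟨u', hmem⟩ : algebraicClosure F Ω) - 1 = -(⟨u', hmem⟩ + 1) := by ring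
      rwa [e2, Valuation.map_neg]
  refine ⟨u, fun g => ?_, hu2⟩
  have hst : ∀ z : algebraicClosure F Ω, W.valuation z < 1 → W.valuation (s g z) < 1 := by
    intro z hz
    by_contra hcon
    obtain ⟨h1, h2⟩ := val_aux W hcon
    rw [← map_inv₀, hW] at h2
    exact val_aux2 W hz (fun h => h1 (by rw [h, map_zero])) h2
  have hpm : s g u = u ∨ s g u = -u := by
    apply sq_eq_sq_iff_eq_or_eq_neg.1
    rw [← map_pow, hu2, map_add, map_one, AlgEquiv.commutes]
  rcases hpm with h | h
  · exact h
  · exfalso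
    have h1 := hst _ hu1
    rw [map_sub, map_one, h] at h1
    have e : -(u : algebraicClosure F Ω) - 1 = -(u + 1) := by ring
    rw [e, Valuation.map_neg] at h1
    have h2 : W.valuation (2 : algebraicClosure F Ω) < 1 := by
      have e2 : (2 : algebraicClosure F Ω) = (u + 1) - (u - 1) := by ring
      rw [e2]
      exact lt_of_le_of_lt (Valuation.map_sub _ _ _) (max_lt h1 hu1)
    have h3 : (2 : algebraicClosure F Ω)⁻¹ ∈ W := by
      have := hk (2 : k)⁻¹
      rwa [map_inv₀, map_ofNat] at this
    have hc : CharZero (algebraicClosure F Ω) :=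
      charZero_of_injective_algebraMap (algebraMap F _).injective
    exact val_aux2 W h2 two_ne_zero h3

theorem interp_of_geom (s : (algebraicClosure k Ω ≃ₐ[k] algebraicClosure k Ω) →*
      (algebraicClosure F Ω ≃ₐ[F] algebraicClosure F Ω)) (hs : Continuous s)
    (hsec : ∀ (g : algebraicClosure k Ω ≃ₐ[k] algebraicClosure k Ω) (x : algebraicClosure k Ω)
      (hx : (x : Ω) ∈ algebraicClosure F Ω),
      ((s g ⟨x, hx⟩ : algebraicClosure F Ω) : Ω) = ((g x : algebraicClosure k Ω) : Ω))
    {x : F} (hx : Transcendental k x) (O : ValuationSubring F)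
    (hO2 : ∀ c : k, algebraMap k F c ∈ O)
    (hO3 : ∀ a ∈ O, ∃ c : k, O.valuation (a - algebraMap k F c) < 1)
    (W : ValuationSubring (algebraicClosure F Ω)) (hWO : W.comap (algebraMap F _) = O)
    (hW : ∀ (g : algebraicClosure k Ω ≃ₐ[k] algebraicClosure k Ω) (x : algebraicClosure F Ω),
      (s g x ∈ W ↔ x ∈ W)) :
    ∃ (f : k[X]) (S : Finset k), f ≠ 0 ∧
      ∀ c ∉ S, ∃ w : algebraicClosure F Ω, (∀ g, s g w = w) ∧
        algebraMap F Ω (x - algebraMap k F c) = algebraMap k Ω (f.eval c) * (w : Ω) ^ 2 := by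
  have hcF : CharZero F := charZero_of_injective_algebraMap (algebraMap k F).injective
  have hkW : ∀ c : k, algebraMap k (algebraicClosure F Ω) c ∈ W := by
    intro c
    have h1 := hO2 c
    rw [← hWO, ValuationSubring.mem_comap, ← IsScalarTower.algebraMap_apply] at h1
    exact h1
  have hval : ∀ z : F, O.valuation z < 1 → W.valuation (algebraMap F _ z) < 1 := by
    intro z hz
    by_contra hcon
    obtain ⟨h1, h2⟩ := val_aux W hcon
    refine val_aux2 O hz (fun h => h1 (by rw [h, map_zero])) ?_
    rw [← hWO, ValuationSubring.mem_comap, map_inv₀]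
    exact h2
  by_cases hxO : x ∈ O
  · obtain ⟨c0, hc0⟩ := hO3 x hxO
    refine ⟨C c0 - X, {c0}, fun h => ?_, fun c hc => ?_⟩
    · have h1 := congrArg (fun p => p.coeff 1) h
      simp [coeff_C] at h1
    · rw [Finset.mem_singleton] at hc
      have hcc : c0 - c ≠ 0 := sub_ne_zero.2 (Ne.symm hc)
      have hcc' : algebraMap k F (c0 - c) ≠ 0 := (_root_.map_ne_zero _).2 hcc
      obtain ⟨u, hu1, hu2⟩ := root_near s W hkW hW
        ((x - algebraMap k F c0) * algebraMap k F (c0 - c)⁻¹) (by
          rw [map_mul, map_mul]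
          have h1 := hval _ hc0
          have h2 : W.valuation (algebraMap F (algebraicClosure F Ω)
              (algebraMap k F (c0 - c)⁻¹)) ≤ 1 := by
            rw [W.valuation_le_one_iff, ← IsScalarTower.algebraMap_apply]
            exact hkW _
          exact mul_lt_one_of_lt_of_le h1 h2)
      refine ⟨u, hu1, ?_⟩
      have h3 : (u : Ω) ^ 2 = 1 + algebraMap F Ω ((x - algebraMap k F c0) *
          algebraMap k F (c0 - c)⁻¹) := congrArg (fun z : algebraicClosure F Ω => (z : Ω)) hu2
      rw [h3, eval_sub, eval_C, eval_X, IsScalarTower.algebraMap_apply k F Ω,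
        ← map_one (algebraMap F Ω), ← map_add, ← map_mul]
      congr 1
      rw [map_inv₀]
      field_simp
      rw [map_sub]
      ring
  · have hx0 : x ≠ 0 := by
      rintro rfl
      exact hxO (zero_mem _)
    have hxv : O.valuation x⁻¹ < 1 := by
      by_contra hcon
      obtain ⟨-, h2⟩ := val_aux O hcon
      rw [inv_inv] at h2
      exact hxO h2
    obtain ⟨a, η, ha, hη, h1⟩ := class_two (K := k) (algebraicClosure F Ω) s hs hsec (fun p u hu => by
      rw [mem_algebraicClosure_iff, isAlgebraic_iff_isIntegral]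
      refine IsIntegral.of_pow two_pos ?_
      rw [hu]
      exact isIntegral_algebraMap) x hx0
    refine ⟨C a, ∅, C_ne_zero.2 ha, fun c _ => ?_⟩
    obtain ⟨u, hu1, hu2⟩ := root_near s W hkW hW (algebraMap k F (-c) * x⁻¹) (by
      rw [map_mul, map_mul]
      have h2 : W.valuation (algebraMap F (algebraicClosure F Ω) (algebraMap k F (-c))) ≤ 1 := by
        rw [W.valuation_le_one_iff, ← IsScalarTower.algebraMap_apply]
        exact hkW _
      rw [mul_comm]
      exact mul_lt_one_of_lt_of_le (hval _ hxv) h2)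
    refine ⟨η * u, fun g => by rw [map_mul, hη, hu1], ?_⟩
    have h3 : (u : Ω) ^ 2 = 1 + algebraMap F Ω (algebraMap k F (-c) * x⁻¹) :=
      congrArg (fun z : algebraicClosure F Ω => (z : Ω)) hu2
    have h4 : algebraMap F Ω x = algebraMap F Ω (algebraMap k F a) * (η : Ω) ^ 2 :=
      congrArg (fun z : algebraicClosure F Ω => (z : Ω)) h1
    change _ = algebraMap k Ω _ * ((η : Ω) * (u : Ω)) ^ 2
    rw [eval_C, mul_pow, ← mul_assoc, IsScalarTower.algebraMap_apply k F Ω, ← h4, h3,
      ← map_one (algebraMap F Ω), ← map_add, ← map_mul]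
    congr 1
    rw [map_neg]
    field_simp
    ring

end

end Pool.Agent.Helper88.MT
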