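import Pool.Agent.Helper88.MT.Kum

/-!
# Sections modulo two: the relation given by dihedral extensions
-/

set_option autoImplicit false
set_option linter.unusedSectionVars false

open IntermediateField

namespace Pool.Agent.Helper88.MT

section
variable {K E Ω : Type} [Field K] [Field E] [Field Ω] [Algebra K E] [Algebra K Ω] [Algebra E Ω]
  [IsScalarTower K E Ω] [CharZero K] [IsAlgClosed Ω]

/-- fixed elements are in `K` -/
lemma mem_base {z : algebraicClosure K Ω}
    (h : ∀ g : algebraicClosure K Ω ≃ₐ[K] algebraicClosure K Ω, g z = z) :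
    ∃ c : K, algebraMap K (algebraicClosure K Ω) c = z := by
  have h1 : z ∈ (IntermediateField.fixedField (⊤ : Subgroup (algebraicClosure K Ω ≃ₐ[K] algebraicClosure K Ω)) :
      IntermediateField K (algebraicClosure K Ω)) :=
    (IntermediateField.mem_fixedField_iff _ _).2 fun g _ => h g
  have h2 : IntermediateField.fixedField (⊤ : Subgroup (algebraicClosure K Ω ≃ₐ[K] algebraicClosure K Ω)) =
      (⊥ : IntermediateField K (algebraicClosure K Ω)) := by
    have := InfiniteGalois.fixedField_fixingSubgroup (⊥ : IntermediateField K (algebraicClosure K Ω))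
    rwa [IntermediateField.fixingSubgroup_bot] at this
  rw [h2, IntermediateField.mem_bot] at h1
  exact h1

variable (E2 : IntermediateField E Ω) [Algebra.IsAlgebraic E E2]
  (s : (algebraicClosure K Ω ≃ₐ[K] algebraicClosure K Ω) →* (E2 ≃ₐ[E] E2)) (hs : Continuous s)
  (hsec : ∀ (g : algebraicClosure K Ω ≃ₐ[K] algebraicClosure K Ω) (z : algebraicClosure K Ω)
    (hz : (z : Ω) ∈ E2), ((s g ⟨z, hz⟩ : E2) : Ω) = ((g z : algebraicClosure K Ω) : Ω))

include hs hsec

/-- the class of a function modulo squares -/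
theorem class_two (hE2 : ∀ (p : E) (u : Ω), u ^ 2 = algebraMap E Ω p → u ∈ E2) (P : E) (hP : P ≠ 0) :
    ∃ (A : K) (η : E2), A ≠ 0 ∧ (∀ g, s g η = η) ∧
      algebraMap E E2 P = algebraMap E E2 (algebraMap K E A) * η ^ 2 := by
  obtain ⟨h, hh⟩ := IsAlgClosed.exists_pow_nat_eq (algebraMap E Ω P) (n := 2) two_pos
  have hhE : h ∈ E2 := hE2 P h hh
  have hPΩ : algebraMap E Ω P ≠ 0 := (map_ne_zero _).2 hP
  have hh2 : (⟨h, hhE⟩ : E2) ^ 2 = algebraMap E E2 P := Subtype.ext hh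
  obtain ⟨β, hβ0, h1, h2⟩ := kummer_sub E2 s hs ⊤ isOpen_univ ⟨h, hhE⟩ (fun g _ => by
    rw [← map_pow, hh2, AlgEquiv.commutes])
  obtain ⟨A, hA⟩ := mem_base fun g => h2 g (Subgroup.mem_top g)
  have hAΩ : (β : Ω) ^ 2 = algebraMap E Ω (algebraMap K E A) := by
    have h3 := congrArg (fun z : algebraicClosure K Ω => (z : Ω)) hA
    rw [← IsScalarTower.algebraMap_apply K E Ω]
    exact h3.symm
  have hβΩ : (β : Ω) ≠ 0 := fun h => hβ0 (Subtype.ext h)
  have hβE : (β : Ω) ∈ E2 := hE2 (algebraMap K E A) β hAΩ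
  refine ⟨A, ⟨h, hhE⟩ / ⟨β, hβE⟩, ?_, fun g => ?_, ?_⟩
  · rintro rfl
    rw [map_zero, map_zero] at hAΩ
    exact hβΩ (pow_eq_zero_iff two_ne_zero |>.1 hAΩ)
  · apply Subtype.ext
    have h3 := h1 g (Subgroup.mem_top g)
    have h4 := hsec g β hβE
    have hgβ : ((g β : algebraicClosure K Ω) : Ω) ≠ 0 := by
      intro h5
      apply hβ0
      have h6 : g β = 0 := Subtype.ext h5
      exact (map_eq_zero g).1 h6
    rw [map_div₀]
    change ((s g ⟨h, hhE⟩ : E2) : Ω) / ((s g ⟨β, hβE⟩ : E2) : Ω) = h / (β : Ω)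
    rw [h4, div_eq_div_iff hgβ hβΩ]
    exact h3
  · apply Subtype.ext
    change algebraMap E Ω P = algebraMap E Ω (algebraMap K E A) * (h / (β : Ω)) ^ 2
    rw [div_pow, hh, hAΩ]
    have : algebraMap E Ω (algebraMap K E A) ≠ 0 := by
      rw [← hAΩ]
      exact pow_ne_zero 2 hβΩ
    field_simp

/-- **The relation** -/
theorem core (hE2 : ∀ (p q a : E) (r u : Ω), r ^ 2 = algebraMap E Ω a →
    u ^ 2 = algebraMap E Ω p + algebraMap E Ω q * r → u ∈ E2) (P R Q : E) (hR : R ≠ 0) (hQ : Q ≠ 0)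
    (hPR : R - P = Q) (A a τ : K) (ha : a ≠ 0) (hA0 : A ≠ 0) (hτ : τ ≠ 0) (η ξ ζ : E2)
    (hη : ∀ g, s g η = η) (hξ : ∀ g, s g ξ = ξ) (hζ : ∀ g, s g ζ = ζ)
    (hPη : algebraMap E E2 P = algebraMap E E2 (algebraMap K E A) * η ^ 2)
    (hRξ : algebraMap E E2 R = algebraMap E E2 (algebraMap K E a) * ξ ^ 2)
    (hQζ : algebraMap E E2 Q = algebraMap E E2 (algebraMap K E τ) * ζ ^ 2) :
    (∃ d : K, d ^ 2 = A * a) ∨ ∃ u w : K, w ^ 2 = A * a * u ^ 2 + τ * a := by
  classical
  have hcΩ : CharZero Ω := charZero_of_injective_algebraMap (algebraMap K Ω).injective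
  have tow : ∀ c : K, algebraMap E Ω (algebraMap K E c) = algebraMap K Ω c :=
    fun c => (IsScalarTower.algebraMap_apply K E Ω c).symm
  -- `δ`
  obtain ⟨δ', hδ'⟩ := IsAlgClosed.exists_pow_nat_eq (algebraMap K Ω (A * a)) (n := 2) two_pos
  have hδint : δ' ∈ algebraicClosure K Ω := by
    rw [mem_algebraicClosure_iff, isAlgebraic_iff_isIntegral]
    refine IsIntegral.of_pow two_pos ?_
    rw [hδ']
    exact isIntegral_algebraMap
  set δ : algebraicClosure K Ω := ⟨δ', hδint⟩ with hδdef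
  have hδ2 : δ ^ 2 = algebraMap K (algebraicClosure K Ω) (A * a) := Subtype.ext hδ'
  have hδ0 : δ ≠ 0 := by
    intro h
    rw [h, zero_pow two_ne_zero] at hδ2
    exact mul_ne_zero hA0 ha ((map_eq_zero _).1 hδ2.symm)
  have hδE : (δ : Ω) ∈ E2 := hE2 (algebraMap K E (A * a)) 0 0 0 δ (by simp) (by
    change δ' ^ 2 = _
    rw [hδ', tow]
    simp)
  have hpm : ∀ g : algebraicClosure K Ω ≃ₐ[K] algebraicClosure K Ω, g δ = δ ∨ g δ = -δ := by
    intro g
    apply sq_eq_sq_iff_eq_or_eq_neg.1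
    rw [← map_pow, hδ2, AlgEquiv.commutes]
  by_cases hfix : ∀ g : algebraicClosure K Ω ≃ₐ[K] algebraicClosure K Ω, g δ = δ
  · left
    obtain ⟨d, hd⟩ := mem_base hfix
    refine ⟨d, (algebraMap K (algebraicClosure K Ω)).injective ?_⟩
    rw [map_pow, hd, hδ2]
  right
  push Not at hfix
  obtain ⟨g0, hg0⟩ := hfix
  have hg0 : g0 δ = -δ := (hpm g0).resolve_left hg0
  have hδneg : -δ ≠ δ := by
    intro h
    apply hδ0
    have h1 : (2 : algebraicClosure K Ω) * δ = 0 := by linear_combination -h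
    rcases mul_eq_zero.1 h1 with h2 | h2
    · exact absurd h2 two_ne_zero
    · exact h2
  -- the stabiliser of `δ`
  let D : Subgroup (algebraicClosure K Ω ≃ₐ[K] algebraicClosure K Ω) :=
    { carrier := {g | g δ = δ}
      mul_mem' := fun {x y} hx hy => by
        change (x * y) δ = δ
        rw [AlgEquiv.mul_apply, show y δ = δ from hy, show x δ = δ from hx]
      one_mem' := rfl
      inv_mem' := fun {x} hx => by
        change x⁻¹ δ = δ
        have h1 : x δ = δ := hx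
        have h2 : x⁻¹ (x δ) = δ := by
          change (x⁻¹ * x) δ = δ
          rw [inv_mul_cancel]
          rfl
        rwa [h1] at h2 }
  have hDmem : ∀ g, g ∈ D ↔ g δ = δ := fun g => Iff.rfl
  have hDo : IsOpen (D : Set (algebraicClosure K Ω ≃ₐ[K] algebraicClosure K Ω)) :=
    fix_open (MonoidHom.id _) continuous_id δ
  have hconj : ∀ g ∈ D, g0⁻¹ * (g * g0) ∈ D := by
    intro g hg
    rw [hDmem]
    have h1 : g0⁻¹ (-δ) = δ := by
      rw [← hg0]
      change (g0⁻¹ * g0) δ = δ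
      rw [inv_mul_cancel]
      rfl
    rw [AlgEquiv.mul_apply, AlgEquiv.mul_apply, hg0, map_neg g, (hDmem g).1 hg, h1]
  have hg00 : g0 * g0 ∈ D := by
    rw [hDmem, AlgEquiv.mul_apply, hg0, map_neg, hg0, neg_neg]
  have hnot : ∀ g, g ∉ D → g0⁻¹ * g ∈ D := by
    intro g hg
    have h1 : g δ = -δ := (hpm g).resolve_left hg
    have h2 : g0⁻¹ (-δ) = δ := by
      rw [← hg0]
      change (g0⁻¹ * g0) δ = δ
      rw [inv_mul_cancel]
      rfl
    rw [hDmem, AlgEquiv.mul_apply, h1, h2]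
  -- elements fixed by `D`
  have hdec : ∀ z : algebraicClosure K Ω, (∀ g ∈ D, g z = z) → ∃ b1 b2 : K,
      z = algebraMap K _ b1 + algebraMap K _ b2 * δ ∧
      g0 z = algebraMap K _ b1 - algebraMap K _ b2 * δ := by
    intro z hz
    have hgz : ∀ g ∈ D, g (g0 z) = g0 z := by
      intro g hg
      have h1 : (g0 * (g0⁻¹ * (g * g0))) z = g0 z := by
        rw [AlgEquiv.mul_apply, hz _ (hconj g hg)]
      rw [mul_inv_cancel_left] at h1
      exact h1
    have hgg : g0 (g0 z) = z := hz _ hg00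
    have hw1 : ∀ g : algebraicClosure K Ω ≃ₐ[K] algebraicClosure K Ω, g (z + g0 z) = z + g0 z := by
      intro g
      by_cases hg : g ∈ D
      · rw [map_add, hz g hg, hgz g hg]
      · have h1 : (g0 * (g0⁻¹ * g)) (z + g0 z) = z + g0 z := by
          rw [AlgEquiv.mul_apply, map_add (g0⁻¹ * g), hz _ (hnot g hg), hgz _ (hnot g hg), map_add,
            hgg, add_comm]
        rwa [mul_inv_cancel_left] at h1
    have hw2 : ∀ g : algebraicClosure K Ω ≃ₐ[K] algebraicClosure K Ω,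
        g ((z - g0 z) * δ) = (z - g0 z) * δ := by
      intro g
      by_cases hg : g ∈ D
      · rw [map_mul, map_sub, hz g hg, hgz g hg, (hDmem g).1 hg]
      · have h1 : (g0 * (g0⁻¹ * g)) ((z - g0 z) * δ) = (z - g0 z) * δ := by
          rw [AlgEquiv.mul_apply, map_mul (g0⁻¹ * g), map_sub (g0⁻¹ * g), hz _ (hnot g hg),
            hgz _ (hnot g hg), (hDmem _).1 (hnot g hg), map_mul, map_sub, hgg, hg0]
          ring
        rwa [mul_inv_cancel_left] at h1
    obtain ⟨c1, hc1⟩ := mem_base hw1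
    obtain ⟨c2, hc2⟩ := mem_base hw2
    have hAa : algebraMap K (algebraicClosure K Ω) (A * a) ≠ 0 :=
      (map_ne_zero _).2 (mul_ne_zero hA0 ha)
    have h2 : (2 : algebraicClosure K Ω) ≠ 0 := two_ne_zero
    have e2 : algebraMap K (algebraicClosure K Ω) (c2 / (2 * (A * a))) * δ = (z - g0 z) / 2 := by
      rw [map_div₀, hc2, map_mul (algebraMap K (algebraicClosure K Ω)) 2, map_ofNat, ← hδ2]
      field_simp
    have e1 : algebraMap K (algebraicClosure K Ω) (c1 / 2) = (z + g0 z) / 2 := by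
      rw [map_div₀, hc1, map_ofNat]
    refine ⟨c1 / 2, c2 / (2 * (A * a)), ?_, ?_⟩
    · rw [e1, e2]
      field_simp
      ring
    · rw [e1, e2]
      field_simp
      ring
  -- `r`, a square root of `P / R`
  have hξ0 : ξ ≠ 0 := by
    rintro rfl
    rw [zero_pow two_ne_zero, mul_zero] at hRξ
    exact hR ((map_eq_zero _).1 hRξ)
  have haE : algebraMap E E2 (algebraMap K E a) ≠ 0 :=
    (map_ne_zero _).2 ((map_ne_zero _).2 ha)
  have hRE : algebraMap E E2 R ≠ 0 := (map_ne_zero _).2 hR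
  set δE : E2 := ⟨δ, hδE⟩ with hδE'
  have hδE2 : δE ^ 2 = algebraMap E E2 (algebraMap K E A) * algebraMap E E2 (algebraMap K E a) := by
    apply Subtype.ext
    change δ' ^ 2 = algebraMap E Ω (algebraMap K E A) * algebraMap E Ω (algebraMap K E a)
    rw [hδ', tow, tow, map_mul]
  set r : E2 := δE * η / (algebraMap E E2 (algebraMap K E a) * ξ) with hr
  have hr2 : r ^ 2 = algebraMap E E2 (P / R) := by
    rw [hr, div_pow, mul_pow, mul_pow, hδE2, map_div₀, hPη, hRξ]
    field_simp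
  obtain ⟨θ', hθ'⟩ := IsAlgClosed.exists_pow_nat_eq (1 + (r : Ω)) (n := 2) two_pos
  have hθE : θ' ∈ E2 := hE2 1 1 (P / R) r θ' (congrArg (fun z : E2 => (z : Ω)) hr2) (by
    rw [hθ', map_one, one_mul])
  set θ : E2 := ⟨θ', hθE⟩ with hθdef
  have hθ2 : θ ^ 2 = 1 + r := Subtype.ext hθ'
  have hr1 : r ^ 2 ≠ 1 := by
    rw [hr2]
    intro h
    have h1 : P / R = 1 := (algebraMap E E2).injective (by rw [h, map_one])
    rw [div_eq_one_iff_eq hR] at h1
    rw [h1, sub_self] at hPR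
    exact hQ hPR.symm
  have hsδ : ∀ g ∈ D, s g δE = δE := by
    intro g hg
    apply Subtype.ext
    rw [hδE', hsec g δ hδE, (hDmem g).1 hg]
  have hsδ0 : s g0 δE = -δE := by
    apply Subtype.ext
    rw [hδE', hsec g0 δ hδE, hg0]
    rfl
  have hsr : ∀ g ∈ D, s g r = r := by
    intro g hg
    rw [hr, map_div₀, map_mul, map_mul, hsδ g hg, hη, hξ, AlgEquiv.commutes]
  have hsr0 : s g0 r = -r := by
    rw [hr, map_div₀, map_mul, map_mul, hsδ0, hη, hξ, AlgEquiv.commutes]
    ring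
  obtain ⟨β, hβ0, hβ1, hβ2⟩ := kummer_sub E2 s hs D hDo θ (fun g hg => by
    rw [← map_pow, hθ2, map_add, map_one, hsr g hg])
  obtain ⟨b1, b2, hb, hb'⟩ := hdec (β ^ 2) hβ2
  have hβE : (β : Ω) ∈ E2 := by
    refine hE2 (algebraMap K E b1) (algebraMap K E b2) (algebraMap K E (A * a)) (δ : Ω) β ?_ ?_
    · change δ' ^ 2 = _
      rw [hδ', tow]
    · have h1 := congrArg (fun z : algebraicClosure K Ω => (z : Ω)) hb
      rw [tow, tow]
      exact h1
  set βE : E2 := ⟨β, hβE⟩ with hβEdef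
  have hβE0 : βE ≠ 0 := by
    intro h
    apply hβ0
    apply Subtype.ext
    exact congrArg (fun z : E2 => (z : Ω)) h
  set ρ : E2 := θ / βE with hρ
  have hsβ : ∀ g, ((s g βE : E2) : Ω) = ((g β : algebraicClosure K Ω) : Ω) := fun g => hsec g β hβE
  have hsβ0 : ∀ g, s g βE ≠ 0 := fun g h => hβE0 ((map_eq_zero (s g)).1 h)
  have hsρ : ∀ g ∈ D, s g ρ = ρ := by
    intro g hg
    rw [hρ, map_div₀, div_eq_div_iff (hsβ0 g) hβE0]
    apply Subtype.ext
    change ((s g θ : E2) : Ω) * (β : Ω) = (θ : Ω) * ((s g βE : E2) : Ω)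
    rw [hsβ]
    exact hβ1 g hg
  set ρ' : E2 := s g0 ρ with hρ'
  have hsm : ∀ (g h : algebraicClosure K Ω ≃ₐ[K] algebraicClosure K Ω) (z : E2),
      s (g * h) z = s g (s h z) := by
    intro g h z
    rw [map_mul]
    rfl
  have hsρ' : ∀ g ∈ D, s g ρ' = ρ' := by
    intro g hg
    have h1 : s (g0 * (g0⁻¹ * (g * g0))) ρ = ρ' := by
      rw [hsm, hsρ _ (hconj g hg)]
    rw [mul_inv_cancel_left, hsm] at h1
    exact h1
  have hsρ00 : s g0 ρ' = ρ := by
    rw [hρ', ← hsm]
    exact hsρ _ hg00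
  have hζ0 : ζ ≠ 0 := by
    rintro rfl
    rw [zero_pow two_ne_zero, mul_zero] at hQζ
    exact hQ ((map_eq_zero _).1 hQζ)
  set κ : E2 := ρ * ρ' * ξ / ζ with hκ
  have hsκ : ∀ g, s g κ = κ := by
    intro g
    by_cases hg : g ∈ D
    · rw [hκ, map_div₀, map_mul, map_mul, hsρ g hg, hsρ' g hg, hξ, hζ]
    · have h1 : s (g0 * (g0⁻¹ * g)) κ = κ := by
        rw [hsm, hκ, map_div₀ (s (g0⁻¹ * g)), map_mul (s (g0⁻¹ * g)), map_mul (s (g0⁻¹ * g)),
          hsρ _ (hnot g hg), hsρ' _ (hnot g hg), hξ, hζ, map_div₀, map_mul, map_mul, hsρ00, hξ, hζ,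
          ← hρ']
        ring
      rwa [mul_inv_cancel_left] at h1
  -- squares
  have hβE2 : βE ^ 2 = algebraMap E E2 (algebraMap K E b1) +
      algebraMap E E2 (algebraMap K E b2) * δE := by
    apply Subtype.ext
    change (β : Ω) ^ 2 = algebraMap E Ω (algebraMap K E b1) + algebraMap E Ω (algebraMap K E b2) * (δ : Ω)
    rw [tow, tow]
    exact congrArg (fun z : algebraicClosure K Ω => (z : Ω)) hb
  have hsβ2 : (s g0 βE) ^ 2 = algebraMap E E2 (algebraMap K E b1) -
      algebraMap E E2 (algebraMap K E b2) * δE := by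
    rw [← map_pow, hβE2, map_add, map_mul, hsδ0, AlgEquiv.commutes, AlgEquiv.commutes]
    ring
  have hρ2 : ρ ^ 2 * βE ^ 2 = 1 + r := by
    rw [hρ, div_pow, hθ2]
    field_simp
  have hρ2' : ρ' ^ 2 * (s g0 βE) ^ 2 = 1 - r := by
    have h1 := congrArg (s g0) hρ2
    rw [map_mul, map_pow, map_pow, map_add, map_one, hsr0] at h1
    rw [h1]
    ring
  have hN : κ ^ 2 * (algebraMap E E2 (algebraMap K E b1) ^ 2 - algebraMap E E2 (algebraMap K E b2) ^ 2 *
      (algebraMap E E2 (algebraMap K E A) * algebraMap E E2 (algebraMap K E a))) *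
      algebraMap E E2 (algebraMap K E a) = algebraMap E E2 (algebraMap K E τ) := by
    have h1 : κ ^ 2 * (βE ^ 2 * (s g0 βE) ^ 2) = (1 - r ^ 2) * ξ ^ 2 / ζ ^ 2 := by
      have h2 : κ ^ 2 * (βE ^ 2 * (s g0 βE) ^ 2) =
          (ρ ^ 2 * βE ^ 2) * (ρ' ^ 2 * (s g0 βE) ^ 2) * ξ ^ 2 / ζ ^ 2 := by
        rw [hκ]
        ring
      rw [h2, hρ2, hρ2']
      ring
    have h3 : βE ^ 2 * (s g0 βE) ^ 2 = algebraMap E E2 (algebraMap K E b1) ^ 2 -
        algebraMap E E2 (algebraMap K E b2) ^ 2 *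
        (algebraMap E E2 (algebraMap K E A) * algebraMap E E2 (algebraMap K E a)) := by
      rw [hβE2, hsβ2, ← hδE2]
      ring
    have h5 : algebraMap E E2 (algebraMap K E τ) = (algebraMap E E2 R - algebraMap E E2 P) / ζ ^ 2 := by
      rw [← map_sub, hPR, hQζ]
      field_simp
    rw [← h3, h1, h5, hr2, map_div₀]
    have h4 : (1 - algebraMap E E2 P / algebraMap E E2 R) * ξ ^ 2 / ζ ^ 2 *
        algebraMap E E2 (algebraMap K E a) =
        (1 - algebraMap E E2 P / algebraMap E E2 R) * algebraMap E E2 R / ζ ^ 2 := by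
      rw [hRξ]
      ring
    rw [h4]
    congr 1
    field_simp
  -- `κ` is in `K`
  have hNne : (algebraMap E E2 (algebraMap K E b1) ^ 2 - algebraMap E E2 (algebraMap K E b2) ^ 2 *
      (algebraMap E E2 (algebraMap K E A) * algebraMap E E2 (algebraMap K E a))) ≠ 0 := by
    intro h
    rw [h, mul_zero, zero_mul] at hN
    exact hτ ((map_eq_zero _).1 ((map_eq_zero _).1 hN.symm))
  have hκalg : (κ : Ω) ∈ algebraicClosure K Ω := by
    rw [mem_algebraicClosure_iff, isAlgebraic_iff_isIntegral]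
    refine IsIntegral.of_pow two_pos ?_
    have h1 : (κ : Ω) ^ 2 = algebraMap K Ω (τ / ((b1 ^ 2 - b2 ^ 2 * (A * a)) * a)) := by
      have h2 : κ ^ 2 = algebraMap E E2 (algebraMap K E (τ / ((b1 ^ 2 - b2 ^ 2 * (A * a)) * a))) := by
        have h3 : algebraMap E E2 (algebraMap K E ((b1 ^ 2 - b2 ^ 2 * (A * a)) * a)) =
            (algebraMap E E2 (algebraMap K E b1) ^ 2 - algebraMap E E2 (algebraMap K E b2) ^ 2 *
            (algebraMap E E2 (algebraMap K E A) * algebraMap E E2 (algebraMap K E a))) *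
            algebraMap E E2 (algebraMap K E a) := by
          simp only [map_mul, map_sub, map_pow]
        rw [map_div₀, map_div₀, h3, ← hN, eq_div_iff (mul_ne_zero hNne haE)]
        ring
      rw [← tow]
      exact congrArg (fun z : E2 => (z : Ω)) h2
    rw [h1]
    exact isIntegral_algebraMap
  obtain ⟨κ0, hκ0⟩ := mem_base (K := K) (Ω := Ω) (z := ⟨(κ : Ω), hκalg⟩) (fun g => by
    apply Subtype.ext
    have h1 := hsec g ⟨(κ : Ω), hκalg⟩ κ.2
    rw [← h1]
    exact congrArg (fun z : E2 => (z : Ω)) (hsκ g))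
  have hκK : κ = algebraMap E E2 (algebraMap K E κ0) := by
    apply Subtype.ext
    change (κ : Ω) = algebraMap E Ω (algebraMap K E κ0)
    rw [tow]
    exact (congrArg (fun z : algebraicClosure K Ω => (z : Ω)) hκ0).symm
  refine ⟨κ0 * a * b2, κ0 * a * b1, ?_⟩
  apply (algebraMap K E).injective
  apply (algebraMap E E2).injective
  rw [hκK] at hN
  simp only [map_mul, map_add, map_pow]
  linear_combination (algebraMap E E2 (algebraMap K E a)) * hN

end

end Pool.Agent.Helper88.MT
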