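import Mathlib

/-!
# Kummer theory for sections of quotients of Galois groups
-/

set_option autoImplicit false

open IntermediateField

namespace Pool.Agent.Helper88.MT

/-- stabilisers are open -/
lemma fix_open {E L G : Type} [Field E] [Field L] [Algebra E L] [Algebra.IsAlgebraic E L] [Group G]
    [TopologicalSpace G] (φ : G →* (L ≃ₐ[E] L)) (hφ : Continuous φ) (x : L) :
    IsOpen {g | φ g x = x} := by
  have h1 : FiniteDimensional E (IntermediateField.adjoin E {x}) :=
    IntermediateField.adjoin.finiteDimensional (Algebra.IsAlgebraic.isAlgebraic x).isIntegral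
  have h2 : IsOpen ((IntermediateField.adjoin E {x}).fixingSubgroup : Set (L ≃ₐ[E] L)) :=
    IntermediateField.fixingSubgroup_isOpen _
  have h3 : {g | φ g x = x} = φ ⁻¹' ((IntermediateField.adjoin E {x}).fixingSubgroup : Set (L ≃ₐ[E] L)) := by
    ext g
    rw [Set.mem_setOf_eq, Set.mem_preimage, SetLike.mem_coe, IntermediateField.mem_fixingSubgroup_iff]
    constructor
    · intro h y hy
      have h4 : IntermediateField.adjoin E {x} ≤
          IntermediateField.fixedField (Subgroup.zpowers (φ g)) := by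
        rw [IntermediateField.adjoin_le_iff]
        intro z hz
        rw [Set.mem_singleton_iff.1 hz, SetLike.mem_coe, IntermediateField.mem_fixedField_iff]
        intro τ hτ
        have h5 : Subgroup.zpowers (φ g) ≤ MulAction.stabilizer _ x := by
          rw [Subgroup.zpowers_le]
          exact h
        exact h5 hτ
      exact (IntermediateField.mem_fixedField_iff _ _).1 (h4 hy) _ (Subgroup.mem_zpowers _)
    · intro h
      exact h x (IntermediateField.subset_adjoin E _ rfl)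
  rw [h3]
  exact h2.preimage hφ

/-- a character of order two of an open subgroup -/
lemma kummer_two {K M : Type} [Field K] [Field M] [Algebra K M] [IsGalois K M]
    (D H : Subgroup (M ≃ₐ[K] M)) (hH : IsOpen (H : Set (M ≃ₐ[K] M))) (hHD : H ≤ D)
    (h2 : ∀ a ∈ D, a ∉ H → ∀ b ∈ D, b ∉ H → a * b ∈ H) :
    ∃ β : M, β ≠ 0 ∧ (∀ g ∈ H, g β = β) ∧ (∀ g ∈ D, g ∉ H → g β = -β) := by
  by_cases hDH : D ≤ H
  · exact ⟨1, one_ne_zero, fun g _ => map_one g, fun g hg hg' => absurd (hDH hg) hg'⟩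
  · obtain ⟨g1, hg1, hg1'⟩ := Set.not_subset.1 hDH
    have hcl : IsClosed (H : Set (M ≃ₐ[K] M)) := H.isClosed_of_isOpen hH
    have hfix : (IntermediateField.fixedField H).fixingSubgroup = H :=
      InfiniteGalois.fixingSubgroup_fixedField ⟨H, hcl⟩
    obtain ⟨b0, hb0, hne⟩ : ∃ b0 ∈ IntermediateField.fixedField H, g1 b0 ≠ b0 := by
      by_contra hcon
      push Not at hcon
      apply hg1'
      have h3 : g1 ∈ (IntermediateField.fixedField H).fixingSubgroup :=
        (IntermediateField.mem_fixingSubgroup_iff _ _).2 hcon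
      rwa [hfix] at h3
    have hb : ∀ g ∈ H, g b0 = b0 := (IntermediateField.mem_fixedField_iff _ _).1 hb0
    have hi : g1⁻¹ ∈ D := D.inv_mem hg1
    have hi' : g1⁻¹ ∉ H := fun h => hg1' (by simpa using H.inv_mem h)
    have hH1 : ∀ g ∈ H, g (b0 - g1 b0) = b0 - g1 b0 := by
      intro g hg
      have h3 : g * g1 ∉ H := fun h => hg1' (by
        have := H.mul_mem (H.inv_mem hg) h
        rwa [inv_mul_cancel_left] at this)
      have h4 : g1⁻¹ * (g * g1) ∈ H := h2 _ hi hi' _ (D.mul_mem (hHD hg) hg1) h3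
      have h5 : g (g1 b0) = g1 b0 := by
        have h6 : (g1 * (g1⁻¹ * (g * g1))) b0 = g1 b0 := by
          rw [AlgEquiv.mul_apply, hb _ h4]
        rw [mul_inv_cancel_left] at h6
        exact h6
      rw [map_sub, hb g hg, h5]
    refine ⟨b0 - g1 b0, sub_ne_zero.2 (Ne.symm hne), hH1, fun g hg hg' => ?_⟩
    have h3 : g1⁻¹ * g ∈ H := h2 _ hi hi' _ hg hg'
    have h4 : g (b0 - g1 b0) = g1 (b0 - g1 b0) := by
      have h5 : (g1 * (g1⁻¹ * g)) (b0 - g1 b0) = g1 (b0 - g1 b0) := by
        rw [AlgEquiv.mul_apply, hH1 _ h3]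
      rwa [mul_inv_cancel_left] at h5
    have h6 : g1 (g1 b0) = b0 := hb (g1 * g1) (h2 _ hg1 hg1' _ hg1 hg1')
    rw [h4, map_sub, h6]
    ring

section
variable {K E Ω : Type} [Field K] [Field E] [Field Ω] [Algebra K E] [Algebra K Ω] [Algebra E Ω]
  [IsScalarTower K E Ω] [CharZero K] [IsAlgClosed Ω]

instance : IsGalois K (algebraicClosure K Ω) := by
  have h1 : IsAlgClosure K (algebraicClosure K Ω) := inferInstance
  exact { }

/-- Kummer theory for an open subgroup -/
lemma kummer_sub (E2 : IntermediateField E Ω) [Algebra.IsAlgebraic E E2]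
    (s : (algebraicClosure K Ω ≃ₐ[K] algebraicClosure K Ω) →* (E2 ≃ₐ[E] E2)) (hs : Continuous s)
    (D : Subgroup (algebraicClosure K Ω ≃ₐ[K] algebraicClosure K Ω))
    (hD : IsOpen (D : Set (algebraicClosure K Ω ≃ₐ[K] algebraicClosure K Ω)))
    (θ : E2) (hθ : ∀ g ∈ D, (s g θ) ^ 2 = θ ^ 2) :
    ∃ β : algebraicClosure K Ω, β ≠ 0 ∧ (∀ g ∈ D, ((s g θ : E2) : Ω) * (β : Ω) =
      (θ : Ω) * ((g β : algebraicClosure K Ω) : Ω)) ∧ (∀ g ∈ D, g (β ^ 2) = β ^ 2) := by
  have hpm : ∀ g ∈ D, s g θ = θ ∨ s g θ = -θ := fun g hg => sq_eq_sq_iff_eq_or_eq_neg.1 (hθ g hg)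
  let H : Subgroup (algebraicClosure K Ω ≃ₐ[K] algebraicClosure K Ω) :=
    { carrier := {g | s g θ = θ} ∩ D
      mul_mem' := fun {a b} ha hb => ⟨by
        change s (a * b) θ = θ
        rw [map_mul, AlgEquiv.mul_apply]
        rw [show s b θ = θ from hb.1, show s a θ = θ from ha.1], D.mul_mem ha.2 hb.2⟩
      one_mem' := ⟨by change s 1 θ = θ; rw [map_one]; rfl, D.one_mem⟩
      inv_mem' := fun {a} ha => ⟨by
        change s a⁻¹ θ = θ
        have h1 : s a θ = θ := ha.1
        have h2 : s a⁻¹ (s a θ) = θ := by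
          change (s a⁻¹ * s a) θ = θ
          rw [← map_mul, inv_mul_cancel, map_one]
          rfl
        rwa [h1] at h2, D.inv_mem ha.2⟩ }
  have hHo : IsOpen (H : Set (algebraicClosure K Ω ≃ₐ[K] algebraicClosure K Ω)) :=
    (fix_open s hs θ).inter hD
  obtain ⟨β, hβ0, h1, h2⟩ := kummer_two D H hHo (fun g hg => hg.2) (by
    intro a ha ha' b hb hb'
    have h3 : s a θ = -θ := (hpm a ha).resolve_left fun h => ha' ⟨h, ha⟩
    have h4 : s b θ = -θ := (hpm b hb).resolve_left fun h => hb' ⟨h, hb⟩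
    refine ⟨?_, D.mul_mem ha hb⟩
    change s (a * b) θ = θ
    rw [map_mul, AlgEquiv.mul_apply, h4, map_neg, h3, neg_neg])
  refine ⟨β, hβ0, fun g hg => ?_, fun g hg => ?_⟩
  · by_cases hgH : g ∈ H
    · rw [h1 g hgH, show s g θ = θ from hgH.1]
    · have h3 : s g θ = -θ := (hpm g hg).resolve_left fun h => hgH ⟨h, hg⟩
      rw [h2 g hg hgH, h3]
      push_cast
      ring
  · by_cases hgH : g ∈ H
    · rw [map_pow, h1 g hgH]
    · rw [map_pow, h2 g hg hgH, neg_sq]

end

end Pool.Agent.Helper88.MT
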