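import Mathlib

/-!
# Descent at a point of the line
-/

set_option autoImplicit false

open Polynomial

namespace Pool.Agent.Helper88.MT

/-- If `w² = f a u² + (X - c) a v²` has a nontrivial solution and `f(c) ≠ 0`, `a ≠ 0`, then `f(c) a` is a
square. -/
theorem descent {k : Type} [Field k] {c a : k} (ha : a ≠ 0) {f : k[X]} (hf : f.eval c ≠ 0)
    (h : ∃ u v w : k[X], v ≠ 0 ∧ w ^ 2 = f * C a * u ^ 2 + (X - C c) * C a * v ^ 2) :
    ∃ d : k, f.eval c * a = d ^ 2 := by
  by_contra hns
  push Not at hns
  have key : ∀ n : ℕ, ∀ u v w : k[X], v.natDegree = n → v ≠ 0 →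
      w ^ 2 ≠ f * C a * u ^ 2 + (X - C c) * C a * v ^ 2 := by
    intro n
    induction n using Nat.strong_induction_on with
    | _ n ih =>
      intro u v w hn hv hw
      have h1 := congrArg (Polynomial.eval c) hw
      simp only [eval_pow, eval_add, eval_mul, eval_C, eval_sub, eval_X, sub_self, zero_mul,
        add_zero] at h1
      have hu : u.eval c = 0 := by
        by_contra hu
        refine hns (w.eval c / u.eval c) ?_
        rw [div_pow, h1]
        field_simp
      have hw0 : w.eval c = 0 := by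
        rw [hu, zero_pow two_ne_zero, mul_zero] at h1
        exact pow_eq_zero_iff two_ne_zero |>.1 h1
      obtain ⟨u', rfl⟩ := dvd_iff_isRoot.2 hu
      obtain ⟨w', rfl⟩ := dvd_iff_isRoot.2 hw0
      have hX : (X - C c : k[X]) ≠ 0 := X_sub_C_ne_zero c
      have h2 : (X - C c) * w' ^ 2 = f * C a * (X - C c) * u' ^ 2 + C a * v ^ 2 := by
        apply mul_left_cancel₀ hX
        linear_combination hw
      have h3 := congrArg (Polynomial.eval c) h2
      simp only [eval_pow, eval_add, eval_mul, eval_C, eval_sub, eval_X, sub_self, zero_mul,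
        mul_zero, zero_add] at h3
      have hv0 : v.eval c = 0 := by
        have h4 : a * v.eval c ^ 2 = 0 := h3.symm
        rcases mul_eq_zero.1 h4 with h5 | h5
        · exact absurd h5 ha
        · exact pow_eq_zero_iff two_ne_zero |>.1 h5
      obtain ⟨v', rfl⟩ := dvd_iff_isRoot.2 hv0
      have hv' : v' ≠ 0 := by
        rintro rfl
        exact hv (mul_zero _)
      refine ih v'.natDegree ?_ u' v' w' rfl hv' ?_
      · rw [← hn, natDegree_mul hX hv', natDegree_X_sub_C]
        omega
      · apply mul_left_cancel₀ hX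
        linear_combination h2
  obtain ⟨u, v, w, hv, hw⟩ := h
  exact key _ u v w rfl hv hw

/-- From `k(t)` to polynomials. -/
theorem clear {k : Type} [Field k] {c a : k} {P Q : k[X]} (hQ : Q ≠ 0)
    {u w : RatFunc k}
    (h : w ^ 2 = (algebraMap k[X] (RatFunc k) P / algebraMap k[X] (RatFunc k) Q) * RatFunc.C a * u ^ 2 +
      (RatFunc.X - RatFunc.C c) * RatFunc.C a) :
    ∃ u' v' w' : k[X], v' ≠ 0 ∧
      w' ^ 2 = (P * Q) * C a * u' ^ 2 + (X - C c) * C a * v' ^ 2 := by
  have hQ' : algebraMap k[X] (RatFunc k) Q ≠ 0 := by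
    exact (map_ne_zero_iff _ (RatFunc.algebraMap_injective k)).2 hQ
  have hu := RatFunc.num_div_denom u
  have hw := RatFunc.num_div_denom w
  have hu0 : algebraMap k[X] (RatFunc k) u.denom ≠ 0 := by
    exact (map_ne_zero_iff _ (RatFunc.algebraMap_injective k)).2 (RatFunc.denom_ne_zero u)
  have hw0 : algebraMap k[X] (RatFunc k) w.denom ≠ 0 := by
    exact (map_ne_zero_iff _ (RatFunc.algebraMap_injective k)).2 (RatFunc.denom_ne_zero w)
  rw [← hu, ← hw] at h
  refine ⟨u.num * w.denom, u.denom * w.denom * Q, w.num * u.denom * Q, ?_, ?_⟩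
  · exact mul_ne_zero (mul_ne_zero (RatFunc.denom_ne_zero u) (RatFunc.denom_ne_zero w)) hQ
  · apply RatFunc.algebraMap_injective k
    simp only [map_pow, map_mul, map_add, map_sub, RatFunc.algebraMap_X, RatFunc.algebraMap_C]
    have h1 : (algebraMap k[X] (RatFunc k) w.num) ^ 2 * (algebraMap k[X] (RatFunc k) u.denom) ^ 2 *
        algebraMap k[X] (RatFunc k) Q =
        algebraMap k[X] (RatFunc k) P * RatFunc.C a * (algebraMap k[X] (RatFunc k) u.num) ^ 2 *
          (algebraMap k[X] (RatFunc k) w.denom) ^ 2 +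
        (RatFunc.X - RatFunc.C c) * RatFunc.C a * (algebraMap k[X] (RatFunc k) u.denom) ^ 2 *
          (algebraMap k[X] (RatFunc k) w.denom) ^ 2 * algebraMap k[X] (RatFunc k) Q := by
      field_simp at h
      linear_combination h
    linear_combination (algebraMap k[X] (RatFunc k) Q) * h1

end Pool.Agent.Helper88.MT
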