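import Mathlib

/-!
# Statements of packages (project MT)
-/

set_option autoImplicit false

open NumberField IsDedekindDomain

namespace Pool.Agent.Helper88.MT

/-- **Package TWO** -/
def S_two : Prop :=
  ∀ (k : Type) [Field k] [NumberField k] (Ω : Type) [Field Ω] [Algebra k Ω] (θ1 θ2 : Ω),
    IsAlgebraic k θ1 → IsAlgebraic k θ2 → θ1 ≠ θ2 →
    ∃ c : k, algebraMap k Ω c ≠ θ2 ∧ ∀ w ∈ IntermediateField.adjoin k {θ1, θ2},
      θ1 - algebraMap k Ω c ≠ w ^ 2 * (θ2 - algebraMap k Ω c)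

/-- **Package LAM** -/
def S_lam : Prop :=
  ∀ (k : Type) [Field k] [NumberField k] (S : Finset k), (∀ e ∈ S, e ≠ 0) →
    ∃ (v : HeightOneSpectrum (𝓞 k)) (l m : k), (∀ e ∈ S, v.valuation k e = 1) ∧
      v.valuation k l = 1 ∧ v.valuation k (1 - l) = 1 ∧ v.valuation k m = WithZero.exp (-1) ∧
      ∀ u z : k, v.valuation k (u ^ 2 - l * z ^ 2) = (max (v.valuation k u) (v.valuation k z)) ^ 2

/-- **Package EXT** -/
def S_ext : Prop :=
  ∀ (k L N : Type) [Field k] [Field L] [Field N] [Algebra k L] [Algebra L N] [Algebra k N]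
    [IsScalarTower k L N] (B : IntermediateField k N) [Algebra.IsAlgebraic k B],
    (∀ y : N, y ∈ Submodule.span L (B : Set N)) →
    ∀ O : ValuationSubring L, (∀ c : k, algebraMap k L c ∈ O) →
    (∀ a ∈ O, ∃ c : k, O.valuation (a - algebraMap k L c) < 1) →
    ∃ W : ValuationSubring N, W.comap (algebraMap L N) = O ∧
      ∀ τ : N ≃ₐ[L] N, (∀ b ∈ B, τ b ∈ B) → ∀ x : N, (τ x ∈ W ↔ x ∈ W)

/-- **Package GAL** -/
def S_gal : Prop :=
  ∀ (k F N : Type) [Field k] [Field F] [Field N] [Algebra k F] [Algebra F N] [Algebra k N]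
    [IsScalarTower k F N] [IsGalois F N] (B : IntermediateField k N) [IsGalois k B]
    (s : (B ≃ₐ[k] B) →* (N ≃ₐ[F] N)), Continuous s →
    (∀ (g : B ≃ₐ[k] B) (b : B), s g (b : N) = ((g b : B) : N)) →
    ∀ y : N, y ∈ Submodule.span (IntermediateField.fixedField s.range : IntermediateField F N)
      (B : Set N)

end Pool.Agent.Helper88.MT
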